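import Mathlib

/-! Equal-weight trigonometric quadrature and Kane's quantity. -/

set_option autoImplicit false

open MeasureTheory

namespace Pool.Agent.Q192.KQ

/-- real trigonometric polynomials of degree at most `n` -/
def trig (n : ℕ) : Submodule ℝ (ℝ → ℝ) :=
  Submodule.span ℝ {f | ∃ j ≤ n, f = (fun θ => Real.cos (j * θ)) ∨ f = (fun θ => Real.sin (j * θ))}

/-- `2π`-periodic weight functions -/
structure IsWeight (W : ℝ → ℝ) : Prop where
  meas : Measurable W
  nonneg : ∀ θ, 0 ≤ W θ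
  per : Function.Periodic W (2 * Real.pi)
  int : IntervalIntegrable W volume (-Real.pi) Real.pi
  pos : 0 < ∫ θ in (-Real.pi)..Real.pi, W θ

/-- there is a Chebyshev-type trigonometric quadrature of degree `n` with `N` nodes for `W` -/
def HasQuad (W : ℝ → ℝ) (n N : ℕ) : Prop :=
  ∃ (θ : Fin N → ℝ) (lam : ℝ), Monotone θ ∧
    ∀ p ∈ trig n, ∫ t in (-Real.pi)..Real.pi, p t * W t = lam * ∑ i, p (θ i)

/-- the node counts from which on quadratures with every number of nodes exist -/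
def Ncounts (W : ℝ → ℝ) (n : ℕ) : Set ℕ := {N₀ | ∀ N ≥ N₀, HasQuad W n N}

/-- the least of them -/
noncomputable def Nbar (W : ℝ → ℝ) (n : ℕ) : ℕ := sInf (Ncounts W n)

/-- the quotients `∫ |p'| / ∫ p W`, `p` a nonnegative nonzero trigonometric polynomial of degree at
most `n` -/
def kaneSet (W : ℝ → ℝ) (n : ℕ) : Set ℝ :=
  {r | ∃ p ∈ trig n, (∀ θ, 0 ≤ p θ) ∧ p ≠ 0 ∧
    r = (∫ t in (-Real.pi)..Real.pi, |deriv p t|) / ∫ t in (-Real.pi)..Real.pi, p t * W t}

/-- Kane's quantity `K_W(n)` -/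
noncomputable def kane (W : ℝ → ℝ) (n : ℕ) : ℕ :=
  ⌊(∫ t in (-Real.pi)..Real.pi, W t) / 2 * sSup (kaneSet W n)⌋₊ + 1

end Pool.Agent.Q192.KQ
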