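import Mathlib

/-! Moments of the arcsine law and exactness of equally spaced nodes. -/

set_option autoImplicit false

open MeasureTheory Set Filter Topology Finset

namespace Pool.Agent.Q192.KQ

/-- moments of the arcsine law -/
noncomputable def mu (m : ℕ) : ℝ := ∏ i ∈ range m, (2 * (i : ℝ) + 1) / (2 * i + 2)

theorem mu_zero : mu 0 = 1 := by simp [mu]

theorem mu_succ (m : ℕ) : mu (m + 1) = mu m * ((2 * (m : ℝ) + 1) / (2 * m + 2)) := by
  unfold mu
  rw [prod_range_succ]

theorem mu_pos (m : ℕ) : 0 < mu m := by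
  unfold mu
  exact prod_pos fun i _ => by positivity

theorem mu_anti : Antitone mu := by
  apply antitone_nat_of_succ_le
  intro m
  rw [mu_succ]
  have h1 := mu_pos m
  have h2 : (2 * (m : ℝ) + 1) / (2 * m + 2) ≤ 1 := by
    rw [div_le_one (by positivity)]
    linarith
  nlinarith

theorem mu_sq (m : ℕ) : mu m ^ 2 * (2 * m + 1) ≤ 1 := by
  induction m with
  | zero => simp [mu_zero]
  | succ m ih =>
    rw [mu_succ]
    refine le_trans ?_ ih
    have h1 := mu_pos m
    push_cast
    rw [mul_pow, div_pow, mul_assoc]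
    apply mul_le_mul_of_nonneg_left _ (by positivity)
    rw [div_mul_eq_mul_div, div_le_iff₀ (by positivity)]
    nlinarith [sq_nonneg (m : ℝ)]

theorem mu_lim : Tendsto mu atTop (𝓝 0) := by
  have h1 : Tendsto (fun m : ℕ => 1 / Real.sqrt (2 * (m : ℝ) + 1)) atTop (𝓝 0) := by
    have h2 : Tendsto (fun m : ℕ => Real.sqrt (2 * (m : ℝ) + 1)) atTop atTop := by
      apply Real.tendsto_sqrt_atTop.comp
      apply Tendsto.atTop_add _ tendsto_const_nhds
      exact tendsto_natCast_atTop_atTop.const_mul_atTop (by norm_num)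
    refine h2.inv_tendsto_atTop.congr fun m => ?_
    simp
  refine squeeze_zero (fun m => (mu_pos m).le) (fun m => ?_) h1
  have h2 := mu_sq m
  rw [le_div_iff₀ (by positivity)]
  have h3 : (mu m * Real.sqrt (2 * (m : ℝ) + 1)) ^ 2 ≤ 1 ^ 2 := by
    rw [mul_pow, Real.sq_sqrt (by positivity)]
    simpa using h2
  exact le_of_sq_le_sq h3 (by norm_num)

/-- the mean over the circle of a function of `sin² (φ/2)` -/
noncomputable def mean (f : ℝ → ℝ) : ℝ :=
  (1 / Real.pi) * ∫ φ in (0 : ℝ)..Real.pi, f (Real.sin (φ / 2) ^ 2)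

theorem mean_pow (m : ℕ) : mean (fun u => u ^ m) = mu m := by
  unfold mean
  have h1 : ∫ φ in (0 : ℝ)..Real.pi, (Real.sin (φ / 2) ^ 2) ^ m =
      2 * ∫ t in (0 : ℝ)..(Real.pi / 2), Real.sin t ^ (2 * m) := by
    have := intervalIntegral.integral_comp_div (a := 0) (b := Real.pi)
      (fun t => Real.sin t ^ (2 * m)) (c := 2) two_ne_zero
    simp only [zero_div, smul_eq_mul] at this
    rw [← this]
    refine intervalIntegral.integral_congr fun φ _ => ?_
    exact (pow_mul _ _ _).symm
  have h2 : ∫ t in (0 : ℝ)..Real.pi, Real.sin t ^ (2 * m) =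
      2 * ∫ t in (0 : ℝ)..(Real.pi / 2), Real.sin t ^ (2 * m) := by
    have hint : ∀ a b : ℝ, IntervalIntegrable (fun t => Real.sin t ^ (2 * m)) volume a b := by
      intro a b
      apply Continuous.intervalIntegrable
      fun_prop
    rw [← intervalIntegral.integral_add_adjacent_intervals (hint 0 (Real.pi / 2))
      (hint (Real.pi / 2) Real.pi)]
    have h3 := intervalIntegral.integral_comp_sub_left (a := (0 : ℝ)) (b := Real.pi / 2)
      (fun t => Real.sin t ^ (2 * m)) Real.pi
    simp only [Real.sin_pi_sub, sub_zero] at h3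
    rw [show Real.pi - Real.pi / 2 = Real.pi / 2 by ring] at h3
    rw [← h3]
    ring
  rw [h1, ← h2, integral_sin_pow_even]
  unfold mu
  have := Real.pi_ne_zero
  field_simp

theorem mean_add {f g : ℝ → ℝ} (hf : Continuous f) (hg : Continuous g) :
    mean (fun u => f u + g u) = mean f + mean g := by
  unfold mean
  rw [intervalIntegral.integral_add, mul_add]
  · exact (hf.comp (by fun_prop)).intervalIntegrable _ _
  · exact (hg.comp (by fun_prop)).intervalIntegrable _ _

theorem mean_mul (c : ℝ) (f : ℝ → ℝ) : mean (fun u => c * f u) = c * mean f := by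
  unfold mean
  rw [intervalIntegral.integral_const_mul]
  ring

theorem mean_poly (q : Polynomial ℝ) :
    mean (fun u => q.eval u) = ∑ i ∈ range (q.natDegree + 1), q.coeff i * mu i := by
  have h1 : (fun u => q.eval u) = fun u => ∑ i ∈ range (q.natDegree + 1), q.coeff i * u ^ i := by
    funext u
    rw [Polynomial.eval_eq_sum_range]
  rw [h1]
  unfold mean
  rw [intervalIntegral.integral_finsetSum, mul_sum]
  · refine sum_congr rfl fun i _ => ?_
    rw [intervalIntegral.integral_const_mul, ← mean_pow]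
    unfold mean
    ring
  · intro i _
    apply Continuous.intervalIntegrable
    fun_prop

theorem mu_choose (m : ℕ) : mu m = (Nat.choose (2 * m) m : ℝ) / 4 ^ m := by
  rw [show Nat.choose (2 * m) m = Nat.centralBinom m from rfl]
  induction m with
  | zero => simp [mu_zero]
  | succ k ih =>
    rw [mu_succ, ih]
    have h := Nat.succ_mul_centralBinom_succ k
    have h' : ((k : ℝ) + 1) * (Nat.centralBinom (k + 1) : ℝ) =
        2 * (2 * k + 1) * (Nat.centralBinom k : ℝ) := by exact_mod_cast h
    have h3 : (0 : ℝ) < k + 1 := by positivity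
    have h4 : (Nat.centralBinom (k + 1) : ℝ) = 2 * (2 * k + 1) * (Nat.centralBinom k : ℝ) / (k + 1) := by
      rw [eq_div_iff h3.ne']
      linarith
    rw [h4, pow_succ]
    field_simp
    ring

/-- sum over the grid of a monomial -/
theorem grid_pow {b m : ℕ} (hm : m < b) :
    ∑ j ∈ range b, (Real.sin (Real.pi * j / b) ^ 2) ^ m = b * mu m := by
  have hb : b ≠ 0 := by omega
  have hb' : (b : ℂ) ≠ 0 := by exact_mod_cast hb
  set ζ : ℂ := Complex.exp (2 * Real.pi * Complex.I / b) with hζ
  have hprim : IsPrimitiveRoot ζ b := Complex.isPrimitiveRoot_exp b hb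
  have hzb : ζ ^ b = 1 := hprim.pow_eq_one
  have hz0 : ζ ≠ 0 := Complex.exp_ne_zero _
  -- sums of powers
  have hsum : ∀ e : ℕ, 0 < e → e < 2 * b → ∑ j ∈ range b, (ζ ^ e) ^ j = if e = b then (b : ℂ) else 0 := by
    intro e h0 h2
    split_ifs with h
    · subst h
      simp [hzb]
    · have h3 : ζ ^ e ≠ 1 := by
        rw [Ne, hprim.pow_eq_one_iff_dvd]
        rintro ⟨t, ht⟩
        have : t = 1 := by
          rcases Nat.lt_or_ge t 1 with h4 | h4
          · have : t = 0 := by omega
            subst this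
            omega
          · by_contra hne
            have : 2 ≤ t := by omega
            nlinarith
        subst this
        omega
      rw [geom_sum_eq h3, ← pow_mul, mul_comm e b, pow_mul, hzb]
      simp
  -- the real sine through `ζ`
  have hsin : ∀ j : ℕ, ((Real.sin (Real.pi * j / b) ^ 2 : ℝ) : ℂ) =
      -(1 / 4) * (ζ ^ j - 1) ^ 2 * ζ ^ (j * (b - 1)) := by
    intro j
    have hbj : ζ ^ (j * (b - 1)) * ζ ^ j = 1 := by
      rw [← pow_add, show j * (b - 1) + j = b * j by
        obtain ⟨c, rfl⟩ := Nat.exists_eq_succ_of_ne_zero hb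
        simp only [Nat.succ_eq_add_one, Nat.add_sub_cancel]
        ring, pow_mul, hzb, one_pow]
    set w : ℂ := Complex.exp (Real.pi * j / b * Complex.I) with hw
    have hw2 : w ^ 2 = ζ ^ j := by
      rw [hw, hζ, ← Complex.exp_nat_mul, ← Complex.exp_nat_mul]
      congr 1
      push_cast
      ring
    have hw0 : w ≠ 0 := Complex.exp_ne_zero _
    have hinv : ζ ^ (j * (b - 1)) = (w ^ 2)⁻¹ := by
      rw [hw2]
      exact eq_inv_of_mul_eq_one_left hbj
    have hs : ((Real.sin (Real.pi * j / b) : ℝ) : ℂ) = (w⁻¹ - w) * Complex.I / 2 := by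
      rw [Complex.ofReal_sin, Complex.sin]
      push_cast
      rw [hw, ← Complex.exp_neg]
      congr 3
      congr 1
      ring
    rw [Complex.ofReal_pow, hs, hinv, ← hw2]
    have hI : Complex.I ^ 2 = -1 := Complex.I_sq
    field_simp
    rw [hI]
    ring
  have hmain : ((∑ j ∈ range b, (Real.sin (Real.pi * j / b) ^ 2) ^ m : ℝ) : ℂ) =
      (-(1 / 4)) ^ m * ((b : ℂ) * ((-1) ^ m * (Nat.choose (2 * m) m : ℂ))) := by
    rw [Complex.ofReal_sum]
    have h1 : ∀ j ∈ range b, (((Real.sin (Real.pi * j / b) ^ 2) ^ m : ℝ) : ℂ) =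
        (-(1 / 4)) ^ m * ∑ r ∈ range (2 * m + 1), (-1) ^ (r + 2 * m) * (Nat.choose (2 * m) r : ℂ) *
          (ζ ^ (r + (b - m))) ^ j := by
      intro j _
      rw [Complex.ofReal_pow, hsin j, mul_pow, mul_pow, ← pow_mul, sub_pow, ← pow_mul, mul_assoc,
        sum_mul]
      congr 1
      refine sum_congr rfl fun r hr => ?_
      have h2 : (ζ ^ j) ^ r * ζ ^ (j * (b - 1) * m) = (ζ ^ (r + (b - m))) ^ j := by
        have h3 : (ζ ^ j) ^ r * ζ ^ (j * (b - 1) * m) = ζ ^ (j * r + j * (b - 1) * m) := by
          rw [pow_add, pow_mul ζ j r]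
        have h4 : j * r + j * (b - 1) * m = (r + (b - m)) * j + b * (j * (m - 1)) ∨ m = 0 := by
          rcases Nat.eq_zero_or_pos m with h5 | h5
          · right; exact h5
          · left
            obtain ⟨c, rfl⟩ := Nat.exists_eq_add_of_lt hm
            obtain ⟨d, rfl⟩ := Nat.exists_eq_succ_of_ne_zero h5.ne'
            have e1 : d.succ + c + 1 - 1 = d + c + 1 := by omega
            have e2 : d.succ + c + 1 - d.succ = c + 1 := by omega
            rw [e1, e2]
            simp only [Nat.succ_eq_add_one, Nat.add_sub_cancel]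
            ring
        rcases h4 with h4 | h4
        · rw [h3, h4, pow_add, pow_mul ζ b, hzb, one_pow, mul_one, pow_mul]
        · subst h4
          rw [h3]
          simp only [mul_zero, add_zero, Nat.sub_zero]
          rw [← pow_mul, add_mul, pow_add, pow_mul ζ b, hzb, one_pow, mul_one, mul_comm]
      rw [one_pow, mul_one]
      linear_combination ((-1 : ℂ) ^ (r + 2 * m) * (Nat.choose (2 * m) r : ℂ)) * h2
    rw [sum_congr rfl h1, ← mul_sum, sum_comm]
    congr 1
    have h2 : ∀ r ∈ range (2 * m + 1), ∑ j ∈ range b, (-1 : ℂ) ^ (r + 2 * m) * (Nat.choose (2 * m) r : ℂ) *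
          (ζ ^ (r + (b - m))) ^ j = if r = m then (b : ℂ) * ((-1) ^ m * (Nat.choose (2 * m) m : ℂ)) else 0 := by
      intro r hr
      rw [Finset.mem_range] at hr
      rw [← mul_sum, hsum _ (by omega) (by omega)]
      by_cases h : r = m
      · subst h
        rw [if_pos (by omega), if_pos rfl, pow_add, pow_mul]
        simp
        ring
      · rw [if_neg (by omega), if_neg h, mul_zero]
    rw [sum_congr rfl h2, sum_ite_eq' (range (2 * m + 1)) m]
    rw [if_pos (by rw [Finset.mem_range]; omega)]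
  have : ((∑ j ∈ range b, (Real.sin (Real.pi * j / b) ^ 2) ^ m : ℝ) : ℂ) = ((b * mu m : ℝ) : ℂ) := by
    rw [hmain, mu_choose]
    have h1 : ((-1 : ℂ) ^ m) * (-1) ^ m = 1 := by rw [← mul_pow]; simp
    have h2 : (-(1 / 4 : ℂ)) ^ m = (-1) ^ m * (1 / 4 ^ m) := by
      rw [show -(1 / 4 : ℂ) = (-1) * (1 / 4) by ring, mul_pow, div_pow, one_pow]
    rw [h2]
    push_cast
    linear_combination ((b : ℂ) * (Nat.choose (2 * m) m : ℂ) * (1 / 4 ^ m)) * h1
  exact_mod_cast this

/-- the grid is exact for polynomials in `sin² (φ/2)` of small degree -/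
theorem grid_poly {b : ℕ} (q : Polynomial ℝ) (hq : q.natDegree < b) :
    ∑ j ∈ range b, q.eval (Real.sin (Real.pi * j / b) ^ 2) = b * mean (fun u => q.eval u) := by
  rw [mean_poly, mul_sum]
  simp_rw [Polynomial.eval_eq_sum_range]
  rw [sum_comm]
  refine sum_congr rfl fun i hi => ?_
  rw [Finset.mem_range] at hi
  rw [← mul_sum, grid_pow (by omega)]
  ring

end Pool.Agent.Q192.KQ
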