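import Mathlib
import Pool.Agent.Q192.KQ.Mom

/-! The weight whose push-forward is prescribed by an increasing function. -/

set_option autoImplicit false

open MeasureTheory Set Filter Topology

namespace Pool.Agent.Q192.KQ

/-- increasing homeomorphisms of the unit interval, differentiable with positive derivative -/
structure Good (h : ℝ → ℝ) : Prop where
  cont : ContinuousOn h (Icc 0 1)
  zero : h 0 = 0
  one : h 1 = 1
  mono : StrictMonoOn h (Icc 0 1)
  der : ∀ u ∈ Ioo (0 : ℝ) 1, ∃ d > 0, HasDerivAt h d u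

/-- `sin² (φ/2)` -/
noncomputable def sn (φ : ℝ) : ℝ := Real.sin (φ / 2) ^ 2

theorem sn_cont : Continuous sn := by unfold sn; fun_prop

theorem sn_Icc (φ : ℝ) : sn φ ∈ Icc (0 : ℝ) 1 := by
  unfold sn
  exact ⟨sq_nonneg _, Real.sin_sq_le_one _⟩

theorem sn_Ioo {φ : ℝ} (h : φ ∈ Ioo 0 Real.pi) : sn φ ∈ Ioo (0 : ℝ) 1 := by
  unfold sn
  have h1 : 0 < Real.sin (φ / 2) := Real.sin_pos_of_pos_of_lt_pi (by linarith [h.1]) (by linarith [h.2, Real.pi_pos])
  have h2 : 0 < Real.cos (φ / 2) := Real.cos_pos_of_mem_Ioo ⟨by linarith [h.1, Real.pi_pos], by linarith [h.2]⟩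
  constructor
  · positivity
  · have := Real.sin_sq_add_cos_sq (φ / 2)
    nlinarith

theorem sn_neg (φ : ℝ) : sn (-φ) = sn φ := by
  unfold sn
  rw [neg_div, Real.sin_neg, neg_sq]

theorem sn_periodic (φ : ℝ) : sn (φ + 2 * Real.pi) = sn φ := by
  unfold sn
  rw [show (φ + 2 * Real.pi) / 2 = φ / 2 + Real.pi by ring, Real.sin_add_pi, neg_sq]

theorem sn_arcsin {v : ℝ} (hv : v ∈ Icc (0 : ℝ) 1) : sn (2 * Real.arcsin (√v)) = v := by
  unfold sn
  rw [mul_div_cancel_left₀ _ two_ne_zero, Real.sin_arcsin (by linarith [Real.sqrt_nonneg v])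
    (Real.sqrt_le_iff.2 ⟨zero_le_one, by simpa using hv.2⟩), Real.sq_sqrt hv.1]

theorem arcsin_sn {θ : ℝ} (h : θ ∈ Ioo 0 Real.pi) : 2 * Real.arcsin (√(sn θ)) = θ := by
  unfold sn
  have h1 : 0 ≤ Real.sin (θ / 2) :=
    Real.sin_nonneg_of_nonneg_of_le_pi (by linarith [h.1]) (by linarith [h.2, Real.pi_pos])
  rw [Real.sqrt_sq h1, Real.arcsin_sin (by linarith [h.1, Real.pi_pos]) (by linarith [h.2])]
  ring

theorem arcsin_Ioo {v : ℝ} (hv : v ∈ Ioo (0 : ℝ) 1) : 2 * Real.arcsin (√v) ∈ Ioo 0 Real.pi := by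
  have h0 : 0 < √v := Real.sqrt_pos.2 hv.1
  have h1 : √v < 1 := (Real.sqrt_lt' one_pos).2 (by simpa using hv.2)
  have h2 : 0 < Real.arcsin (√v) := Real.arcsin_pos.2 h0
  have h3 : Real.arcsin (√v) < Real.pi / 2 := Real.arcsin_lt_pi_div_two.2 h1
  constructor <;> linarith

section

variable {h : ℝ → ℝ} (hg : Good h)

include hg

theorem Good.map_Ioo {u : ℝ} (hu : u ∈ Ioo (0 : ℝ) 1) : h u ∈ Ioo (0 : ℝ) 1 := by
  constructor
  · rw [← hg.zero]
    exact hg.mono (left_mem_Icc.2 zero_le_one) ⟨hu.1.le, hu.2.le⟩ hu.1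
  · rw [← hg.one]
    exact hg.mono ⟨hu.1.le, hu.2.le⟩ (right_mem_Icc.2 zero_le_one) hu.2

theorem Good.map_Icc {u : ℝ} (hu : u ∈ Icc (0 : ℝ) 1) : h u ∈ Icc (0 : ℝ) 1 := by
  constructor
  · rw [← hg.zero]
    exact hg.mono.monotoneOn (left_mem_Icc.2 zero_le_one) hu hu.1
  · rw [← hg.one]
    exact hg.mono.monotoneOn hu (right_mem_Icc.2 zero_le_one) hu.2

theorem Good.comp_cont : Continuous (fun φ => h (sn φ)) :=
  hg.cont.comp_continuous sn_cont sn_Icc

/-- the change of variable -/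
noncomputable def FF (h : ℝ → ℝ) (φ : ℝ) : ℝ := 2 * Real.arcsin (√(h (sn φ)))

theorem FF_cont : Continuous (FF h) := by
  unfold FF
  exact continuous_const.mul (Real.continuous_arcsin.comp (Real.continuous_sqrt.comp hg.comp_cont))

theorem FF_maps {φ : ℝ} (hφ : φ ∈ Ioo 0 Real.pi) : FF h φ ∈ Ioo 0 Real.pi :=
  arcsin_Ioo (hg.map_Ioo (sn_Ioo hφ))

theorem sn_FF (φ : ℝ) : sn (FF h φ) = h (sn φ) := sn_arcsin (hg.map_Icc (sn_Icc φ))

theorem FF_inj : InjOn (FF h) (Ioo 0 Real.pi) := by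
  intro a ha b hb hab
  have h1 : h (sn a) = h (sn b) := by rw [← sn_FF hg, ← sn_FF hg, hab]
  have h2 : sn a = sn b := hg.mono.injOn (sn_Icc a) (sn_Icc b) h1
  rw [← arcsin_sn ha, ← arcsin_sn hb, h2]

theorem FF_surj {θ : ℝ} (hθ : θ ∈ Ioo 0 Real.pi) : ∃ φ ∈ Ioo 0 Real.pi, FF h φ = θ := by
  have h1 : sn θ ∈ Ioo (h 0) (h 1) := by
    rw [hg.zero, hg.one]
    exact sn_Ioo hθ
  obtain ⟨u, hu, huv⟩ := intermediate_value_Ioo zero_le_one hg.cont h1
  refine ⟨2 * Real.arcsin (√u), arcsin_Ioo hu, ?_⟩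
  unfold FF
  rw [sn_arcsin ⟨hu.1.le, hu.2.le⟩, huv, arcsin_sn hθ]

theorem FF_deriv {φ : ℝ} (hφ : φ ∈ Ioo 0 Real.pi) : ∃ d > 0, HasDerivAt (FF h) d φ := by
  obtain ⟨d, hd, hdd⟩ := hg.der _ (sn_Ioo hφ)
  have hv := hg.map_Ioo (sn_Ioo hφ)
  have hs : HasDerivAt sn (Real.sin (φ / 2) * Real.cos (φ / 2)) φ := by
    unfold sn
    have h1 := (((hasDerivAt_id φ).div_const 2).sin).pow 2
    refine h1.congr_deriv ?_
    simp only [id]
    ring
  have h1 : 0 < Real.sin (φ / 2) := Real.sin_pos_of_pos_of_lt_pi (by linarith [hφ.1]) (by linarith [hφ.2, Real.pi_pos])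
  have h2 : 0 < Real.cos (φ / 2) := Real.cos_pos_of_mem_Ioo ⟨by linarith [hφ.1, Real.pi_pos], by linarith [hφ.2]⟩
  have h3 := hdd.comp φ hs
  have h4 := h3.sqrt hv.1.ne'
  have hsq0 : 0 < √(h (sn φ)) := Real.sqrt_pos.2 hv.1
  have hsq1 : √(h (sn φ)) < 1 := (Real.sqrt_lt' one_pos).2 (by simpa using hv.2)
  have h5 := (Real.hasDerivAt_arcsin (x := √(h (sn φ))) (by linarith) hsq1.ne).comp φ h4
  have h6 := h5.const_mul 2
  refine ⟨_, ?_, h6⟩
  have h7 : 0 < 1 - √(h (sn φ)) ^ 2 := by nlinarith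
  simp only [Function.comp]
  positivity

/-- the change of variable preserves null sets in both directions -/
theorem FF_null {A : Set ℝ} (hA : MeasurableSet A) :
    volume (A ∩ Ioo 0 Real.pi) = 0 ↔ volume (FF h ⁻¹' A ∩ Ioo 0 Real.pi) = 0 := by
  have himg : FF h '' (FF h ⁻¹' A ∩ Ioo 0 Real.pi) = A ∩ Ioo 0 Real.pi := by
    ext θ
    constructor
    · rintro ⟨φ, ⟨h1, h2⟩, rfl⟩
      exact ⟨h1, FF_maps hg h2⟩
    · rintro ⟨h1, h2⟩
      obtain ⟨φ, hφ, rfl⟩ := FF_surj hg h2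
      exact ⟨φ, ⟨h1, hφ⟩, rfl⟩
  have hms : MeasurableSet (FF h ⁻¹' A ∩ Ioo 0 Real.pi) :=
    ((FF_cont hg).measurable hA).inter measurableSet_Ioo
  have hder : ∀ x ∈ FF h ⁻¹' A ∩ Ioo 0 Real.pi,
      HasDerivWithinAt (FF h) (deriv (FF h) x) (FF h ⁻¹' A ∩ Ioo 0 Real.pi) x := by
    intro x hx
    obtain ⟨d, hd, hdd⟩ := FF_deriv hg hx.2
    rw [hdd.deriv]
    exact hdd.hasDerivWithinAt
  have hform := lintegral_image_eq_lintegral_abs_deriv_mul hms hder
    ((FF_inj hg).mono inter_subset_right) (fun _ => 1)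
  simp only [mul_one] at hform
  rw [himg, setLIntegral_one] at hform
  have hmd : Measurable (fun x => ENNReal.ofReal |deriv (FF h) x|) :=
    ENNReal.measurable_ofReal.comp (measurable_deriv (FF h)).norm
  rw [hform, lintegral_eq_zero_iff' hmd.aemeasurable]
  constructor
  · intro h0
    rw [Filter.EventuallyEq, ae_restrict_iff' hms] at h0
    rw [measure_eq_zero_iff_ae_notMem]
    filter_upwards [h0] with x hx hxm
    have h1 := hx hxm
    obtain ⟨d, hd, hdd⟩ := FF_deriv hg hxm.2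
    simp only [Pi.zero_apply, hdd.deriv, abs_of_pos hd] at h1
    rw [ENNReal.ofReal_eq_zero] at h1
    linarith
  · intro h0
    rw [Measure.restrict_eq_zero.2 h0]
    simp [Filter.EventuallyEq]

/-- the weight -/
theorem weight_exists : ∃ W : ℝ → ℝ, Measurable W ∧ (∀ θ, 0 ≤ W θ) ∧
    (∀ θ, W (θ + 2 * Real.pi) = W θ) ∧ (∀ θ, W (-θ) = W θ) ∧
    IntegrableOn W (Ioo 0 Real.pi) ∧ (∀ᵐ θ, W θ ≠ 0) ∧
    ∀ g : ℝ → ℝ, Continuous g →
      ∫ θ in Ioo 0 Real.pi, g (sn θ) * W θ = ∫ φ in Ioo 0 Real.pi, g (h (sn φ)) := by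
  set lam : Measure ℝ := volume.restrict (Ioo 0 Real.pi) with hlam
  have hfl : IsFiniteMeasure lam := by
    constructor
    rw [hlam, Measure.restrict_apply_univ, Real.volume_Ioo]
    exact ENNReal.ofReal_lt_top
  set nu : Measure ℝ := lam.map (FF h) with hnu
  have hFm : Measurable (FF h) := (FF_cont hg).measurable
  have hac1 : nu ≪ lam := by
    intro A hA0
    -- pass to a measurable superset
    obtain ⟨B, hAB, hB, hB0⟩ := exists_measurable_superset_of_null hA0
    refine measure_mono_null hAB ?_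
    rw [hnu, Measure.map_apply hFm hB, hlam, Measure.restrict_apply (hFm hB)]
    rw [hlam, Measure.restrict_apply hB] at hB0
    exact (FF_null hg hB).1 hB0
  have hac2 : lam ≪ nu := by
    intro A hA0
    obtain ⟨B, hAB, hB, hB0⟩ := exists_measurable_superset_of_null hA0
    refine measure_mono_null hAB ?_
    rw [hnu, Measure.map_apply hFm hB, hlam, Measure.restrict_apply (hFm hB)] at hB0
    rw [hlam, Measure.restrict_apply hB]
    exact (FF_null hg hB).2 hB0
  have hsm : Measurable sn := sn_cont.measurable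
  set al : Measure ℝ := lam.map sn with hal
  set be : Measure ℝ := nu.map sn with hbe
  have hfa : IsFiniteMeasure al := by rw [hal]; infer_instance
  have hfn : IsFiniteMeasure nu := by rw [hnu]; infer_instance
  have hfb : IsFiniteMeasure be := by rw [hbe]; infer_instance
  have hba : be ≪ al := hac1.map hsm
  have hab : al ≪ be := hac2.map hsm
  refine ⟨fun θ => (be.rnDeriv al (sn θ)).toReal, ?_, ?_, ?_, ?_, ?_, ?_, ?_⟩
  · exact ((Measure.measurable_rnDeriv be al).comp hsm).ennreal_toReal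
  · intro θ
    exact ENNReal.toReal_nonneg
  · intro θ
    simp only
    rw [sn_periodic]
  · intro θ
    simp only
    rw [sn_neg]
  · have h1 : Integrable (fun x => (be.rnDeriv al x).toReal) al := Measure.integrable_toReal_rnDeriv
    rw [hal, integrable_map_measure (by rw [← hal]; exact h1.aestronglyMeasurable) hsm.aemeasurable] at h1
    exact h1
  · -- positivity almost everywhere
    have h1 : ∀ᵐ x ∂al, (be.rnDeriv al x).toReal ≠ 0 := by
      filter_upwards [Measure.rnDeriv_pos' hab, Measure.rnDeriv_lt_top be al] with x hx hx2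
      exact (ENNReal.toReal_pos hx.ne' hx2.ne).ne'
    have h2 : ∀ᵐ θ ∂lam, (be.rnDeriv al (sn θ)).toReal ≠ 0 := by
      rw [hal] at h1
      exact ae_of_ae_map hsm.aemeasurable h1
    rw [hlam, ae_restrict_iff' measurableSet_Ioo] at h2
    set Z : Set ℝ := {θ | (be.rnDeriv al (sn θ)).toReal = 0} with hZ
    have hZm : MeasurableSet Z :=
      measurableSet_eq_fun ((Measure.measurable_rnDeriv be al).comp hsm).ennreal_toReal measurable_const
    have hZ1 : volume (Z ∩ Ioo 0 Real.pi) = 0 := by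
      rw [measure_eq_zero_iff_ae_notMem]
      filter_upwards [h2] with θ hθ h3
      exact hθ h3.2 h3.1
    have hZneg : ∀ θ, θ ∈ Z → -θ ∈ Z := by
      intro θ hθ
      simp only [hZ, Set.mem_ofPred_eq] at hθ ⊢
      rw [sn_neg]
      exact hθ
    have hZ2 : volume (Z ∩ Ioo (-Real.pi) 0) = 0 := by
      have h3 : Z ∩ Ioo (-Real.pi) 0 = Neg.neg ⁻¹' (Z ∩ Ioo 0 Real.pi) := by
        ext θ
        simp only [mem_inter_iff, mem_Ioo, mem_preimage]
        constructor
        · rintro ⟨h4, h5, h6⟩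
          exact ⟨hZneg _ h4, by linarith, by linarith⟩
        · rintro ⟨h4, h5, h6⟩
          refine ⟨?_, by linarith, by linarith⟩
          have := hZneg _ h4
          rwa [neg_neg] at this
      rw [h3, Measure.measure_preimage_neg]
      exact hZ1
    have hZ3 : volume (Z ∩ Ioc (-Real.pi) (-Real.pi + 2 * Real.pi)) = 0 := by
      refine measure_mono_null (t := (Z ∩ Ioo (-Real.pi) 0) ∪ (Z ∩ Ioo 0 Real.pi) ∪ {0, Real.pi}) ?_ ?_
      · intro θ hθ
        have h4 := hθ.2.1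
        have h5 := hθ.2.2
        rcases lt_trichotomy θ 0 with h6 | h6 | h6
        · left; left
          exact ⟨hθ.1, h4, h6⟩
        · right
          simp [h6]
        · rcases (show θ ≤ Real.pi by linarith).eq_or_lt with h7 | h7
          · right
            simp [h7]
          · left; right
            exact ⟨hθ.1, h6, h7⟩
      · rw [measure_union_null_iff, measure_union_null_iff]
        refine ⟨⟨hZ2, hZ1⟩, ?_⟩
        exact (Set.toFinite _).measure_zero _
    have hZ4 : volume Z = 0 := by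
      refine (isAddFundamentalDomain_Ioc Real.two_pi_pos (-Real.pi)).measure_zero_of_invariant Z ?_ hZ3
      have hper : Function.Periodic sn (2 * Real.pi) := sn_periodic
      rintro ⟨g, hgz⟩
      obtain ⟨k, rfl⟩ := AddSubgroup.mem_zmultiples_iff.1 hgz
      ext θ
      rw [Set.mem_vadd_set_iff_neg_vadd_mem]
      simp only [hZ, Set.mem_ofPred_eq]
      have h4 : sn (-(⟨k • (2 * Real.pi), hgz⟩ : AddSubgroup.zmultiples (2 * Real.pi)) +ᵥ θ) = sn θ := by
        show sn (-(k • (2 * Real.pi)) + θ) = sn θ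
        rw [neg_add_eq_sub]
        exact hper.sub_zsmul_eq k
      rw [h4]
    rw [ae_iff]
    simpa [hZ] using hZ4
  · intro g hgc
    have hgm : ∀ μ : Measure ℝ, AEStronglyMeasurable g μ := fun μ => hgc.aestronglyMeasurable
    have h1 : ∫ x, (be.rnDeriv al x).toReal • g x ∂al = ∫ x, g x ∂be := integral_rnDeriv_smul hba
    rw [hal, integral_map hsm.aemeasurable] at h1
    · rw [← hal] at h1
      rw [hbe, hnu, Measure.map_map hsm hFm, integral_map (hsm.comp hFm).aemeasurable (hgm _)] at h1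
      simp only [Function.comp, sn_FF hg, smul_eq_mul] at h1
      rw [← h1]
      refine integral_congr_ae (Eventually.of_forall fun θ => ?_)
      simp only
      rw [mul_comm, hbe, hnu, Measure.map_map hsm hFm]
    · rw [← hal]
      exact ((Measure.measurable_rnDeriv be al).ennreal_toReal.aestronglyMeasurable).smul (hgm _)

end

end Pool.Agent.Q192.KQ
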