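import Mathlib
import Pool.Agent.Q192.KQ.Defs
import Pool.Agent.Q192.KQ.Wt

/-! Blocks of nodes. -/

set_option autoImplicit false

open MeasureTheory Set Filter Topology

namespace Pool.Agent.Q192.KQ

/-- the properties of the weight built from `h` -/
structure WProp (h W : ℝ → ℝ) : Prop where
  meas : Measurable W
  nonneg : ∀ θ, 0 ≤ W θ
  per : ∀ θ, W (θ + 2 * Real.pi) = W θ
  even : ∀ θ, W (-θ) = W θ
  int : IntegrableOn W (Ioo 0 Real.pi)
  ae : ∀ᵐ θ, W θ ≠ 0
  form : ∀ g : ℝ → ℝ, Continuous g →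
      ∫ θ in Ioo 0 Real.pi, g (sn θ) * W θ = ∫ φ in Ioo 0 Real.pi, g (h (sn φ))

theorem int_Ioo (f : ℝ → ℝ) : ∫ θ in Ioo 0 Real.pi, f θ = ∫ θ in (0 : ℝ)..Real.pi, f θ := by
  rw [intervalIntegral.integral_of_le Real.pi_pos.le, integral_Ioc_eq_integral_Ioo]

theorem trig_cont {n : ℕ} {p : ℝ → ℝ} (hp : p ∈ trig n) : Continuous p := by
  refine Submodule.span_induction (p := fun f _ => Continuous f) ?_ continuous_const ?_ ?_ hp
  · rintro f ⟨j, _, rfl | rfl⟩ <;> fun_prop
  · intro f g _ _ h1 h2
    exact h1.add h2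
  · intro a f _ h1
    exact h1.const_smul a

/-- the polynomial of `cos (jθ)` in `sin² (θ/2)` -/
noncomputable def ap (j : ℕ) : Polynomial ℝ :=
  (Polynomial.Chebyshev.T ℝ j).comp (1 - 2 * Polynomial.X)

theorem ap_eval (j : ℕ) (θ : ℝ) : (ap j).eval (sn θ) = Real.cos (j * θ) := by
  unfold ap sn
  rw [Polynomial.eval_comp]
  have h1 : (1 - 2 * Polynomial.X : Polynomial ℝ).eval (Real.sin (θ / 2) ^ 2) = Real.cos θ := by
    simp only [Polynomial.eval_sub, Polynomial.eval_one, Polynomial.eval_mul, Polynomial.eval_X,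
      Polynomial.eval_ofNat]
    have h1 := Real.cos_two_mul (θ / 2)
    rw [mul_div_cancel₀ _ (two_ne_zero : (2 : ℝ) ≠ 0)] at h1
    have h2 := Real.sin_sq_add_cos_sq (θ / 2)
    linarith
  rw [h1, Polynomial.Chebyshev.T_real_cos]
  push_cast
  rfl

theorem ap_deg (j : ℕ) : (ap j).natDegree ≤ j := by
  unfold ap
  refine (Polynomial.natDegree_comp_le).trans ?_
  have h1 : (Polynomial.Chebyshev.T ℝ (j : ℤ)).natDegree = j := by
    rw [Polynomial.Chebyshev.natDegree_T]
    simp
  have h2 : (1 - 2 * Polynomial.X : Polynomial ℝ).natDegree ≤ 1 := by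
    compute_degree
  rw [h1]
  nlinarith

section

variable {h W : ℝ → ℝ} (hW : WProp h W) (hg : Good h)

include hW

theorem WProp.ii : IntervalIntegrable W volume (-Real.pi) Real.pi := by
  have h1 : IntervalIntegrable W volume 0 Real.pi := by
    rw [intervalIntegrable_iff_integrableOn_Ioo_of_le Real.pi_pos.le]
    exact hW.int
  have h2 : IntervalIntegrable W volume (-Real.pi) 0 := by
    have := (IntervalIntegrable.iff_comp_neg (by simp)).1 h1
    simp only [neg_zero, hW.even] at this
    exact this.symm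
  exact h2.trans h1

theorem WProp.ii_mul {p : ℝ → ℝ} (hp : Continuous p) :
    IntervalIntegrable (fun t => p t * W t) volume (-Real.pi) Real.pi :=
  (hW.ii).continuousOn_mul hp.continuousOn

theorem WProp.fold {p : ℝ → ℝ} (hp : Continuous p) :
    ∫ t in (-Real.pi)..Real.pi, p t * W t =
      ∫ t in (0 : ℝ)..Real.pi, (p t + p (-t)) * W t := by
  have hi := hW.ii_mul hp
  have hsub1 : uIcc (-Real.pi) 0 ⊆ uIcc (-Real.pi) Real.pi := by
    rw [uIcc_of_le (by linarith [Real.pi_pos]), uIcc_of_le (by linarith [Real.pi_pos])]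
    exact Icc_subset_Icc le_rfl Real.pi_pos.le
  have hsub2 : uIcc 0 Real.pi ⊆ uIcc (-Real.pi) Real.pi := by
    rw [uIcc_of_le Real.pi_pos.le, uIcc_of_le (by linarith [Real.pi_pos])]
    exact Icc_subset_Icc (by linarith [Real.pi_pos]) le_rfl
  have h1 := hi.mono_set hsub1
  have h2 := hi.mono_set hsub2
  rw [← intervalIntegral.integral_add_adjacent_intervals h1 h2]
  have h3 : ∫ t in (-Real.pi)..0, p t * W t = ∫ t in (0 : ℝ)..Real.pi, p (-t) * W t := by
    have := intervalIntegral.integral_comp_neg (a := 0) (b := Real.pi) (fun t => p t * W t)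
    simp only [hW.even, neg_zero] at this
    rw [this]
  have h4 : IntervalIntegrable (fun t => p (-t) * W t) volume 0 Real.pi :=
    (hW.ii_mul (hp.comp continuous_neg)).mono_set hsub2
  rw [h3, ← intervalIntegral.integral_add h4 h2]
  refine intervalIntegral.integral_congr fun t _ => ?_
  ring

theorem WProp.int_poly (a : Polynomial ℝ) :
    ∫ t in (-Real.pi)..Real.pi, a.eval (sn t) * W t =
      2 * Real.pi * mean (fun u => a.eval (h u)) := by
  have h0 := hW.fold (p := fun t => a.eval (sn t)) (a.continuous.comp sn_cont)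
  rw [h0]
  have h1 : ∀ t, (a.eval (sn t) + a.eval (sn (-t))) * W t = 2 * (a.eval (sn t) * W t) := by
    intro t
    rw [sn_neg]
    ring
  simp_rw [h1]
  rw [intervalIntegral.integral_const_mul, ← int_Ioo, hW.form (fun v => a.eval v) a.continuous, int_Ioo]
  unfold mean sn
  have := Real.pi_ne_zero
  field_simp

theorem WProp.total : ∫ t in (-Real.pi)..Real.pi, W t = 2 * Real.pi := by
  have := hW.int_poly 1
  simp only [Polynomial.eval_one, one_mul] at this
  rw [this]
  unfold mean
  simp

/-- exact blocks of nodes -/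
def Ex (W : ℝ → ℝ) (n N : ℕ) : Prop :=
  ∃ s : Multiset ℝ, s.card = N ∧ ∀ p ∈ trig n,
    (s.map p).sum = N * (1 / (2 * Real.pi)) * ∫ t in (-Real.pi)..Real.pi, p t * W t

end

theorem Ex.add {W : ℝ → ℝ} {n N M : ℕ} (h1 : Ex W n N) (h2 : Ex W n M) : Ex W n (N + M) := by
  obtain ⟨s, hs, hs2⟩ := h1
  obtain ⟨t, ht, ht2⟩ := h2
  refine ⟨s + t, by rw [Multiset.card_add, hs, ht], fun p hp => ?_⟩
  rw [Multiset.map_add, Multiset.sum_add, hs2 p hp, ht2 p hp]
  push_cast
  ring

theorem Ex.zero (W : ℝ → ℝ) (n : ℕ) : Ex W n 0 := ⟨0, by simp, fun p _ => by simp⟩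

theorem Ex.hasQuad {W : ℝ → ℝ} {n N : ℕ} (hN : 0 < N) (h1 : Ex W n N) : HasQuad W n N := by
  obtain ⟨s, hs, hs2⟩ := h1
  have hl : (s.sort (· ≤ ·)).length = N := by rw [Multiset.length_sort, hs]
  refine ⟨fun i => (s.sort (· ≤ ·)).get (i.cast hl.symm), 2 * Real.pi / N, ?_, fun p hp => ?_⟩
  · intro i j hij
    exact (s.pairwise_sort (· ≤ ·)).rel_get_of_le (by simpa using hij)
  · have h2 : ∑ i : Fin N, p ((s.sort (· ≤ ·)).get (i.cast hl.symm)) = (s.map p).sum := by
      conv_rhs => rw [← Multiset.sort_eq s (· ≤ ·)]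
      rw [Multiset.map_coe, Multiset.sum_coe]
      subst hl
      rw [← Fin.sum_univ_fun_getElem]
      rfl
    rw [h2, hs2 p hp]
    have h3 : (N : ℝ) ≠ 0 := by exact_mod_cast hN.ne'
    have := Real.pi_ne_zero
    field_simp

/-- from two odd blocks to every large number of nodes -/
theorem count_of_blocks {W : ℝ → ℝ} {n b : ℕ} (hb1 : 1 < b) (hodd : Odd b) (h1 : Ex W n b)
    (h2 : Ex W n (b + 2)) : b * (b + 2) ∈ Ncounts W n := by
  intro N hN
  apply Ex.hasQuad (by nlinarith)
  have hcop : Nat.Coprime b (b + 2) := by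
    have h3 : Nat.Coprime b 2 := by
      rw [Nat.coprime_two_right]
      exact hodd
    rw [Nat.coprime_self_add_right]
    exact h3
  have hf := frobeniusNumber_pair hcop hb1 (by omega)
  have hmem : N ∈ AddSubmonoid.closure ({b, b + 2} : Set ℕ) := by
    by_contra hcon
    have := hf.2 hcon
    have h4 : b * (b + 2) - b - (b + 2) < b * (b + 2) := by
      have : 0 < b * (b + 2) := by positivity
      omega
    omega
  refine AddSubmonoid.closure_induction (motive := fun N _ => Ex W n N) ?_ (Ex.zero W n) ?_ hmem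
  · intro x hx
    rcases hx with rfl | hx
    · exact h1
    · rw [Set.mem_singleton_iff] at hx
      rw [hx]
      exact h2
  · intro x y _ _ hx hy
    exact hx.add hy

section

variable {h W : ℝ → ℝ} (hW : WProp h W) (hg : Good h)

include hW hg

omit hW in
theorem mean_h_sum (a : Polynomial ℝ) : mean (fun u => a.eval (h u)) =
    ∑ i ∈ Finset.range (a.natDegree + 1), a.coeff i * mean (fun u => h u ^ i) := by
  have h1 : (fun u => a.eval (h u)) =
      fun u => ∑ i ∈ Finset.range (a.natDegree + 1), a.coeff i * h u ^ i := by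
    funext u
    rw [Polynomial.eval_eq_sum_range]
  rw [h1]
  unfold mean
  rw [intervalIntegral.integral_finsetSum, Finset.mul_sum]
  · refine Finset.sum_congr rfl fun i _ => ?_
    rw [intervalIntegral.integral_const_mul]
    ring
  · intro i _
    apply Continuous.intervalIntegrable
    exact continuous_const.mul (hg.comp_cont.pow i)

/-- a symmetric block -/
theorem block {n k : ℕ} (v : ℕ → ℝ) (hv : ∀ j < k, 0 < v j ∧ v j < 1)
    (hmom : ∀ i < n, 2 * ∑ j ∈ Finset.range k, v j ^ (i + 1) =
      (2 * k + 1 : ℕ) * mean (fun u => h u ^ (i + 1))) : Ex W n (2 * k + 1) := by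
  set th : ℕ → ℝ := fun j => 2 * Real.arcsin (√(v j)) with hth
  refine ⟨{0} + ∑ j ∈ Finset.range k, {th j, -th j}, ?_, ?_⟩
  · rw [Multiset.card_add, Multiset.card_sum]
    simp
    ring
  · intro p hp
    have hsum : ∀ f : ℝ → ℝ, ((({0} : Multiset ℝ) + ∑ j ∈ Finset.range k, {th j, -th j}).map f).sum =
        f 0 + ∑ j ∈ Finset.range k, (f (th j) + f (-th j)) := by
      intro f
      rw [Multiset.map_add, Multiset.sum_add]
      congr 1
      · simp
      · rw [← Multiset.coe_mapAddMonoidHom, map_sum, ← Multiset.coe_sumAddMonoidHom, map_sum]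
        refine Finset.sum_congr rfl fun j _ => ?_
        simp
    -- polynomials in sin²
    have hpoly : ∀ a : Polynomial ℝ, a.natDegree ≤ n →
        a.eval 0 + ∑ j ∈ Finset.range k, (a.eval (v j) + a.eval (v j)) =
          (2 * k + 1 : ℕ) * mean (fun u => a.eval (h u)) := by
      intro a ha
      rw [mean_h_sum hg, Finset.mul_sum]
      have e1 : ∀ x : ℝ, a.eval x = ∑ i ∈ Finset.range (a.natDegree + 1), a.coeff i * x ^ i :=
        fun x => by rw [Polynomial.eval_eq_sum_range]
      have e2 : ∑ j ∈ Finset.range k, (a.eval (v j) + a.eval (v j)) =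
          ∑ i ∈ Finset.range (a.natDegree + 1), a.coeff i * (2 * ∑ j ∈ Finset.range k, v j ^ i) := by
        simp_rw [e1]
        simp_rw [← two_mul, Finset.mul_sum]
        rw [Finset.sum_comm]
        refine Finset.sum_congr rfl fun i _ => Finset.sum_congr rfl fun j _ => ?_
        ring
      rw [e2, e1 0, ← Finset.sum_add_distrib]
      refine Finset.sum_congr rfl fun i hi => ?_
      rw [Finset.mem_range] at hi
      rcases Nat.eq_zero_or_pos i with h0 | h0
      · subst h0
        unfold mean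
        simp
        have := Real.pi_ne_zero
        field_simp
        ring
      · obtain ⟨i', rfl⟩ := Nat.exists_eq_succ_of_ne_zero h0.ne'
        have := hmom i' (by simp only [Nat.succ_eq_add_one] at hi; omega)
        simp only [Nat.succ_eq_add_one] at *
        rw [this]
        rw [zero_pow (by omega)]
        ring
    suffices hs : Continuous p ∧ (p 0 + ∑ j ∈ Finset.range k, (p (th j) + p (-th j)) =
        (2 * k + 1 : ℕ) * (1 / (2 * Real.pi)) * ∫ t in (-Real.pi)..Real.pi, p t * W t) by
      rw [hsum, hs.2]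
    refine Submodule.span_induction (p := fun f _ => Continuous f ∧
      (f 0 + ∑ j ∈ Finset.range k, (f (th j) + f (-th j)) =
        (2 * k + 1 : ℕ) * (1 / (2 * Real.pi)) * ∫ t in (-Real.pi)..Real.pi, f t * W t)) ?_ ?_ ?_ ?_ hp
    · rintro f ⟨j, hj, rfl | rfl⟩
      · refine ⟨by fun_prop, ?_⟩
        simp_rw [← ap_eval j]
        rw [hW.int_poly]
        have h1 := hpoly (ap j) ((ap_deg j).trans hj)
        have h2 : ∀ i ∈ Finset.range k, (ap j).eval (sn (th i)) + (ap j).eval (sn (-th i)) =
            (ap j).eval (v i) + (ap j).eval (v i) := by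
          intro i hi
          rw [Finset.mem_range] at hi
          have h3 := hv i hi
          rw [sn_neg, hth]
          simp only
          rw [sn_arcsin ⟨h3.1.le, h3.2.le⟩]
        rw [Finset.sum_congr rfl h2]
        have h4 : sn 0 = 0 := by simp [sn]
        rw [h4, h1]
        have := Real.pi_ne_zero
        field_simp
      · refine ⟨by fun_prop, ?_⟩
        rw [hW.fold (by fun_prop)]
        simp
    · refine ⟨continuous_const, ?_⟩
      simp
    · rintro f g _ _ ⟨hf1, hf2⟩ ⟨hg1, hg2⟩
      refine ⟨hf1.add hg1, ?_⟩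
      simp only [Pi.add_apply, add_mul]
      rw [intervalIntegral.integral_add (hW.ii_mul hf1) (hW.ii_mul hg1), mul_add, ← hf2, ← hg2]
      simp only [Finset.sum_add_distrib]
      ring
    · rintro c f _ ⟨hf1, hf2⟩
      refine ⟨hf1.const_smul c, ?_⟩
      simp only [Pi.smul_apply, smul_eq_mul, mul_assoc]
      rw [intervalIntegral.integral_const_mul]
      have h1 : ∑ j ∈ Finset.range k, (c * f (th j) + c * f (-th j)) =
          c * ∑ j ∈ Finset.range k, (f (th j) + f (-th j)) := by
        rw [Finset.mul_sum]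
        exact Finset.sum_congr rfl fun j _ => by ring
      rw [h1]
      linear_combination c * hf2

end

end Pool.Agent.Q192.KQ
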