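import Mathlib
import Pool.Agent.Q192.KQ.Quad

/-! Kane's quantity: finiteness and a lower bound. -/

set_option autoImplicit false

open MeasureTheory Set Filter Topology

namespace Pool.Agent.Q192.KQ

theorem trig_smooth {n : ℕ} {p : ℝ → ℝ} (hp : p ∈ trig n) : ContDiff ℝ 1 p := by
  refine Submodule.span_induction (p := fun f _ => ContDiff ℝ 1 f) ?_ contDiff_const ?_ ?_ hp
  · rintro f ⟨j, _, rfl | rfl⟩
    · exact Real.contDiff_cos.comp (contDiff_const.mul contDiff_id)
    · exact Real.contDiff_sin.comp (contDiff_const.mul contDiff_id)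
  · intro f g _ _ h1 h2
    exact h1.add h2
  · intro a f _ h1
    exact h1.const_smul a

theorem trig_per {n : ℕ} {p : ℝ → ℝ} (hp : p ∈ trig n) : Function.Periodic p (2 * Real.pi) := by
  refine Submodule.span_induction (p := fun f _ => Function.Periodic f (2 * Real.pi)) ?_ ?_ ?_ ?_ hp
  · rintro f ⟨j, _, rfl | rfl⟩ θ
    · simp only
      rw [mul_add, ← mul_assoc, mul_comm (j : ℝ) 2, mul_assoc, Real.cos_add]
      have h1 : Real.cos (2 * ((j : ℝ) * Real.pi)) = 1 := by
        have := Real.cos_nat_mul_two_pi j
        rw [← this]; congr 1; ring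
      have h2 : Real.sin (2 * ((j : ℝ) * Real.pi)) = 0 := by
        have := Real.sin_nat_mul_pi (2 * j)
        rw [← this]; congr 1; push_cast; ring
      rw [h1, h2]
      ring
    · simp only
      rw [mul_add, ← mul_assoc, mul_comm (j : ℝ) 2, mul_assoc, Real.sin_add]
      have h1 : Real.cos (2 * ((j : ℝ) * Real.pi)) = 1 := by
        have := Real.cos_nat_mul_two_pi j
        rw [← this]; congr 1; ring
      have h2 : Real.sin (2 * ((j : ℝ) * Real.pi)) = 0 := by
        have := Real.sin_nat_mul_pi (2 * j)
        rw [← this]; congr 1; push_cast; ring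
      rw [h1, h2]
      ring
  · intro θ
    rfl
  · intro f g _ _ h1 h2
    exact h1.add h2
  · intro a f _ h1 θ
    simp only [Pi.smul_apply]
    rw [h1 θ]

theorem trig_mono {n m : ℕ} (h : n ≤ m) : trig n ≤ trig m := by
  apply Submodule.span_mono
  rintro f ⟨j, hj, hf⟩
  exact ⟨j, hj.trans h, hf⟩

theorem trig_cos {n j : ℕ} (h : j ≤ n) : (fun θ => Real.cos (j * θ)) ∈ trig n :=
  Submodule.subset_span ⟨j, h, Or.inl rfl⟩

theorem trig_sin {n j : ℕ} (h : j ≤ n) : (fun θ => Real.sin (j * θ)) ∈ trig n :=
  Submodule.subset_span ⟨j, h, Or.inr rfl⟩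

theorem cos_mul_mem {n : ℕ} {p : ℝ → ℝ} (hp : p ∈ trig n) :
    (fun θ => Real.cos θ * p θ) ∈ trig (n + 1) := by
  refine Submodule.span_induction (p := fun f _ => (fun θ => Real.cos θ * f θ) ∈ trig (n + 1))
    ?_ ?_ ?_ ?_ hp
  · rintro f ⟨j, hj, rfl | rfl⟩
    · rcases Nat.eq_zero_or_pos j with h0 | h0
      · subst h0
        have := trig_cos (n := n + 1) (j := 1) (by omega)
        convert this using 2 with θ
        simp
      · obtain ⟨i, rfl⟩ := Nat.exists_eq_succ_of_ne_zero h0.ne'
        have h1 := trig_cos (n := n + 1) (j := i + 2) (by simp only [Nat.succ_eq_add_one] at hj; omega)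
        have h2 := trig_cos (n := n + 1) (j := i) (by simp only [Nat.succ_eq_add_one] at hj; omega)
        have h3 := ((trig (n + 1)).add_mem h1 h2)
        have h4 := (trig (n + 1)).smul_mem (1 / 2 : ℝ) h3
        convert h4 using 2 with θ
        simp only [Pi.smul_apply, Pi.add_apply, smul_eq_mul, Nat.succ_eq_add_one]
        push_cast
        have e1 : ((i : ℝ) + 2) * θ = (i + 1) * θ + θ := by ring
        have e2 : (i : ℝ) * θ = (i + 1) * θ - θ := by ring
        rw [e1, e2, Real.cos_add, Real.cos_sub]
        ring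
    · rcases Nat.eq_zero_or_pos j with h0 | h0
      · subst h0
        have := (trig (n + 1)).zero_mem
        convert this using 2 with θ
        simp
      · obtain ⟨i, rfl⟩ := Nat.exists_eq_succ_of_ne_zero h0.ne'
        have h1 := trig_sin (n := n + 1) (j := i + 2) (by simp only [Nat.succ_eq_add_one] at hj; omega)
        have h2 := trig_sin (n := n + 1) (j := i) (by simp only [Nat.succ_eq_add_one] at hj; omega)
        have h3 := ((trig (n + 1)).add_mem h1 h2)
        have h4 := (trig (n + 1)).smul_mem (1 / 2 : ℝ) h3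
        convert h4 using 2 with θ
        simp only [Pi.smul_apply, Pi.add_apply, smul_eq_mul, Nat.succ_eq_add_one]
        push_cast
        have e1 : ((i : ℝ) + 2) * θ = (i + 1) * θ + θ := by ring
        have e2 : (i : ℝ) * θ = (i + 1) * θ - θ := by ring
        rw [e1, e2, Real.sin_add, Real.sin_sub]
        ring
  · have := (trig (n + 1)).zero_mem
    convert this using 2 with θ
    simp
  · intro f g _ _ h1 h2
    have := (trig (n + 1)).add_mem h1 h2
    convert this using 2 with θ
    simp only [Pi.add_apply]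
    ring
  · intro a f _ h1
    have := (trig (n + 1)).smul_mem a h1
    convert this using 2 with θ
    simp only [Pi.smul_apply, smul_eq_mul]
    ring

theorem sn_pow_mem (n : ℕ) : (fun θ => sn θ ^ n) ∈ trig n := by
  induction n with
  | zero =>
    have := trig_cos (n := 0) (j := 0) le_rfl
    convert this using 2 with θ
    simp
  | succ n ih =>
    have h1 := cos_mul_mem ih
    have h2 := trig_mono (Nat.le_succ n) ih
    have h3 := (trig (n + 1)).smul_mem (1 / 2 : ℝ) ((trig (n + 1)).sub_mem h2 h1)
    convert h3 using 2 with θ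
    simp only [Pi.smul_apply, Pi.sub_apply, smul_eq_mul]
    have e : sn θ = (1 - Real.cos θ) / 2 := by
      unfold sn
      have h1 := Real.cos_two_mul (θ / 2)
      rw [mul_div_cancel₀ _ (two_ne_zero : (2 : ℝ) ≠ 0)] at h1
      have h2 := Real.sin_sq_add_cos_sq (θ / 2)
      linarith
    rw [pow_succ]
    linear_combination (sn θ ^ n) * e

/-- a copy of the space without topology -/
def TV (n : ℕ) : Type := ↥(trig n)

noncomputable instance (n : ℕ) : AddCommGroup (TV n) := inferInstanceAs (AddCommGroup (trig n))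
noncomputable instance (n : ℕ) : Module ℝ (TV n) := inferInstanceAs (Module ℝ (trig n))

/-- the quotients of Kane are bounded -/
theorem kane_bdd {W : ℝ → ℝ} (hi : IntervalIntegrable W volume (-Real.pi) Real.pi)
    (h0 : ∀ θ, 0 ≤ W θ) (hae : ∀ᵐ θ, W θ ≠ 0) (n : ℕ) : BddAbove (kaneSet W n) := by
  have hpi := Real.pi_pos
  have hle : -Real.pi ≤ Real.pi := by linarith
  have hmul : ∀ p : ℝ → ℝ, Continuous p →
      IntervalIntegrable (fun t => |p t| * W t) volume (-Real.pi) Real.pi := fun p hp =>
    hi.continuousOn_mul hp.abs.continuousOn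
  -- definiteness
  have hdef : ∀ p ∈ trig n, ∫ t in (-Real.pi)..Real.pi, |p t| * W t = 0 → p = 0 := by
    intro p hp hz
    have hc := trig_cont hp
    rw [intervalIntegral.integral_of_le hle] at hz
    rw [integral_eq_zero_iff_of_nonneg (fun t => mul_nonneg (abs_nonneg _) (h0 t))
      ((intervalIntegrable_iff_integrableOn_Ioc_of_le hle).1 (hmul p hc))] at hz
    have h1 : p =ᵐ[volume.restrict (Ioo (-Real.pi) Real.pi)] fun _ => (0 : ℝ) := by
      have h2 := ae_restrict_of_ae_restrict_of_subset (Ioo_subset_Ioc_self) hz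
      have h3 := ae_restrict_of_ae (s := Ioo (-Real.pi) Real.pi) hae
      filter_upwards [h2, h3] with t ht1 ht2
      simp only [Pi.zero_apply] at ht1
      rcases mul_eq_zero.1 ht1 with h4 | h4
      · exact abs_eq_zero.1 h4
      · exact absurd h4 ht2
    have h2 := Measure.eqOn_open_of_ae_eq h1 isOpen_Ioo hc.continuousOn continuousOn_const
    have h3 : EqOn p (fun _ => 0) (closure (Ioo (-Real.pi) Real.pi)) := h2.closure hc continuous_const
    rw [closure_Ioo (by linarith)] at h3
    funext θ
    obtain ⟨y, hy, hyp⟩ := (trig_per hp).exists_mem_Ico₀ Real.two_pi_pos θ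
    obtain ⟨z, hz1, hz2⟩ := (trig_per hp).exists_mem_Ico Real.two_pi_pos θ (-Real.pi)
    rw [hz2]
    exact h3 ⟨hz1.1, by linarith [hz1.2]⟩
  have hfin : FiniteDimensional ℝ (TV n) := by
    show FiniteDimensional ℝ (trig n)
    apply FiniteDimensional.span_of_finite
    have : {f : ℝ → ℝ | ∃ j ≤ n, f = (fun θ => Real.cos (j * θ)) ∨ f = (fun θ => Real.sin (j * θ))} ⊆
        ((fun j : ℕ => (fun θ : ℝ => Real.cos (j * θ))) '' (Set.Iic n)) ∪
        ((fun j : ℕ => (fun θ : ℝ => Real.sin (j * θ))) '' (Set.Iic n)) := by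
      rintro f ⟨j, hj, hf | hf⟩
      · exact Or.inl ⟨j, hj, hf.symm⟩
      · exact Or.inr ⟨j, hj, hf.symm⟩
    exact (((Set.finite_Iic n).image _).union ((Set.finite_Iic n).image _)).subset this
  -- the norm
  let N : AddGroupNorm (TV n) :=
    { toFun := fun p => ∫ t in (-Real.pi)..Real.pi, |p.1 t| * W t
      map_zero' := by
        show ∫ t in (-Real.pi)..Real.pi, |(0 : ℝ)| * W t = 0
        simp
      add_le' := by
        intro p q
        have hp := hmul _ (trig_cont p.2)
        have hq := hmul _ (trig_cont q.2)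
        rw [← intervalIntegral.integral_add hp hq]
        apply intervalIntegral.integral_mono_on hle (hmul _ (trig_cont (p + q).2)) (hp.add hq)
        intro t _
        rw [← add_mul]
        apply mul_le_mul_of_nonneg_right _ (h0 t)
        exact abs_add_le (p.1 t) (q.1 t)
      neg' := by
        intro p
        refine intervalIntegral.integral_congr fun t _ => ?_
        show |-(p.1 t)| * W t = |p.1 t| * W t
        rw [abs_neg]
      eq_zero_of_map_eq_zero' := by
        intro p hp
        exact Subtype.ext (hdef p.1 p.2 hp) }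
  let inst1 : NormedAddCommGroup (TV n) := N.toNormedAddCommGroup
  have hnorm : ∀ p : TV n, ‖p‖ = ∫ t in (-Real.pi)..Real.pi, |p.1 t| * W t := fun p => rfl
  let inst2 : NormedSpace ℝ (TV n) :=
    { norm_smul_le := by
        intro a p
        rw [hnorm, hnorm, Real.norm_eq_abs, ← intervalIntegral.integral_const_mul]
        apply le_of_eq
        refine intervalIntegral.integral_congr fun t _ => ?_
        show |a * p.1 t| * W t = |a| * (|p.1 t| * W t)
        rw [abs_mul]
        ring }
  let D : (TV n) →ₗ[ℝ] C(Icc (-Real.pi) Real.pi, ℝ) :=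
    { toFun := fun p => ⟨fun t => deriv p.1 t, by
        have := (trig_smooth p.2).continuous_deriv le_rfl
        exact this.comp continuous_subtype_val⟩
      map_add' := by
        intro p q
        ext t
        exact deriv_add ((trig_smooth p.2).differentiable (by norm_num) _)
          ((trig_smooth q.2).differentiable (by norm_num) _)
      map_smul' := by
        intro a p
        ext t
        exact deriv_const_smul a ((trig_smooth p.2).differentiable (by norm_num) _) }
  set D' := LinearMap.toContinuousLinearMap D with hD'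
  refine ⟨2 * Real.pi * ‖D'‖, ?_⟩
  rintro r ⟨p, hp, hp0, hpne, rfl⟩
  set P : TV n := ⟨p, hp⟩ with hP
  have h1 : ∫ t in (-Real.pi)..Real.pi, p t * W t = ‖P‖ := by
    rw [hnorm]
    refine intervalIntegral.integral_congr fun t _ => ?_
    simp only [hP]
    rw [abs_of_nonneg (hp0 t)]
  have h2 : ∫ t in (-Real.pi)..Real.pi, |deriv p t| ≤ 2 * Real.pi * (‖D'‖ * ‖P‖) := by
    have h3 : ∀ t ∈ Icc (-Real.pi) Real.pi, |deriv p t| ≤ ‖D'‖ * ‖P‖ := by
      intro t ht
      have h4 := (D' P).norm_coe_le_norm ⟨t, ht⟩
      have h5 := D'.le_opNorm P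
      have h6 : (D' P) ⟨t, ht⟩ = deriv p t := rfl
      rw [h6, Real.norm_eq_abs] at h4
      exact h4.trans h5
    have h4 : ∫ t in (-Real.pi)..Real.pi, |deriv p t| ≤ ∫ t in (-Real.pi)..Real.pi, ‖D'‖ * ‖P‖ := by
      apply intervalIntegral.integral_mono_on hle
      · exact ((trig_smooth hp).continuous_deriv le_rfl).abs.intervalIntegrable _ _
      · exact intervalIntegrable_const
      · exact h3
    rw [intervalIntegral.integral_const] at h4
    simp only [smul_eq_mul] at h4
    linarith
  rw [h1]
  rcases (norm_nonneg P).eq_or_lt with h3 | h3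
  · rw [← h3, div_zero]
    positivity
  · rw [div_le_iff₀ h3]
    linarith

section

variable {h W : ℝ → ℝ} (hW : WProp h W) (hg : Good h)

include hW hg

/-- the lower bound for Kane's quantity -/
theorem kane_ge {n : ℕ} (hn : 1 ≤ n) : 1 ≤ (kane W n : ℝ) * (2 * mean (fun u => h u ^ n)) := by
  have hbdd := kane_bdd hW.ii hW.nonneg hW.ae n
  have hpi := Real.pi_pos
  set p : ℝ → ℝ := fun θ => sn θ ^ n with hp
  have hmem : p ∈ trig n := sn_pow_mem n
  have hpW : ∫ t in (-Real.pi)..Real.pi, p t * W t = 2 * Real.pi * mean (fun u => h u ^ n) := by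
    have := hW.int_poly (Polynomial.X ^ n)
    simpa using this
  have hdp := (trig_smooth hmem).continuous_deriv le_rfl
  have hd1 : 1 ≤ ∫ t in (-Real.pi)..Real.pi, |deriv p t| := by
    have h1 : ∫ t in (0 : ℝ)..Real.pi, deriv p t = 1 := by
      rw [intervalIntegral.integral_deriv_eq_sub]
      · simp [hp, sn]
        omega
      · intro x _
        exact (trig_smooth hmem).differentiable (by norm_num) x
      · exact hdp.intervalIntegrable _ _
    have h2 : ∫ t in (0 : ℝ)..Real.pi, deriv p t ≤ ∫ t in (0 : ℝ)..Real.pi, |deriv p t| := by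
      apply intervalIntegral.integral_mono_on hpi.le (hdp.intervalIntegrable _ _)
        (hdp.abs.intervalIntegrable _ _)
      intro t _
      exact le_abs_self _
    have h3 : 0 ≤ ∫ t in (-Real.pi)..0, |deriv p t| :=
      intervalIntegral.integral_nonneg (by linarith) (fun t _ => abs_nonneg _)
    rw [← intervalIntegral.integral_add_adjacent_intervals (hdp.abs.intervalIntegrable (-Real.pi) 0)
      (hdp.abs.intervalIntegrable 0 Real.pi)]
    linarith
  have hmean : 0 < mean (fun u => h u ^ n) := by
    unfold mean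
    apply mul_pos (by positivity)
    apply intervalIntegral.intervalIntegral_pos_of_pos_on
    · exact ((hg.comp_cont).pow n).intervalIntegrable _ _
    · intro φ hφ
      exact pow_pos (hg.map_Ioo (sn_Ioo hφ)).1 n
    · exact hpi
  have hr : (∫ t in (-Real.pi)..Real.pi, |deriv p t|) / (2 * Real.pi * mean (fun u => h u ^ n)) ≤
      sSup (kaneSet W n) := by
    apply le_csSup hbdd
    refine ⟨p, hmem, fun θ => pow_nonneg (sn_Icc θ).1 n, ?_, by rw [hpW]⟩
    intro h0
    have := congrFun h0 Real.pi
    simp [hp, sn] at this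
  have hfl := Nat.lt_floor_add_one ((∫ t in (-Real.pi)..Real.pi, W t) / 2 * sSup (kaneSet W n))
  have hk : (∫ t in (-Real.pi)..Real.pi, W t) / 2 * sSup (kaneSet W n) ≤ (kane W n : ℝ) := by
    unfold kane
    push_cast
    exact hfl.le
  rw [hW.total] at hk
  rw [div_le_iff₀ (by positivity)] at hr
  have h1 : 1 ≤ sSup (kaneSet W n) * (2 * Real.pi * mean (fun u => h u ^ n)) := hd1.trans hr
  have h2 : sSup (kaneSet W n) * (2 * Real.pi * mean (fun u => h u ^ n)) =
      (2 * Real.pi / 2 * sSup (kaneSet W n)) * (2 * mean (fun u => h u ^ n)) := by ring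
  rw [h2] at h1
  exact h1.trans (mul_le_mul_of_nonneg_right hk (by positivity))

end

end Pool.Agent.Q192.KQ
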