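import Mathlib
import Pool.Agent.Q192.KQ.Mom

/-! Openness of the moment map at configurations of distinct points. -/

set_option autoImplicit false

open Set Filter Topology Finset

namespace Pool.Agent.Q192.KQ

/-- power sums -/
noncomputable def G (n : ℕ) (x : Fin n → ℝ) : Fin n → ℝ := fun i => ∑ j, x j ^ ((i : ℕ) + 1)

noncomputable def G' (n : ℕ) (v : Fin n → ℝ) : (Fin n → ℝ) →L[ℝ] (Fin n → ℝ) :=
  ContinuousLinearMap.pi fun i => ∑ j, (((i : ℕ) + 1 : ℕ) * v j ^ (i : ℕ)) •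
    (ContinuousLinearMap.proj j : (Fin n → ℝ) →L[ℝ] ℝ)

theorem G_strict (n : ℕ) (v : Fin n → ℝ) : HasStrictFDerivAt (G n) (G' n v) v := by
  unfold G G'
  rw [hasStrictFDerivAt_pi]
  intro i
  refine HasStrictFDerivAt.fun_sum fun j _ => ?_
  have h := (hasStrictFDerivAt_apply (𝕜 := ℝ) (F' := fun _ : Fin n => ℝ) j v).pow ((i : ℕ) + 1)
  simpa using h

theorem G'_range (n : ℕ) (v : Fin n → ℝ) (hv : Function.Injective v) :
    (G' n v).range = ⊤ := by
  rw [LinearMap.range_eq_top]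
  have hinj : Function.Injective ((G' n v : (Fin n → ℝ) →L[ℝ] (Fin n → ℝ)) : (Fin n → ℝ) →ₗ[ℝ] (Fin n → ℝ)) := by
    rw [injective_iff_map_eq_zero]
    intro w hw
    apply Matrix.eq_zero_of_forall_pow_sum_mul_pow_eq_zero hv
    intro i
    have h1 : (G' n v) w i = 0 := by
      have := congrFun hw i
      exact this
    unfold G' at h1
    simp only [ContinuousLinearMap.coe_pi', ContinuousLinearMap.sum_apply,
      ContinuousLinearMap.smul_apply, ContinuousLinearMap.proj_apply, smul_eq_mul] at h1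
    have h2 : (((i : ℕ) + 1 : ℕ) : ℝ) * ∑ j, w j * v j ^ (i : ℕ) = 0 := by
      rw [mul_sum, ← h1]
      refine sum_congr rfl fun j _ => ?_
      ring
    rcases mul_eq_zero.1 h2 with h3 | h3
    · exfalso
      have : (((i : ℕ) + 1 : ℕ) : ℝ) ≠ 0 := by positivity
      exact this h3
    · exact h3
  exact LinearMap.injective_iff_surjective.1 hinj

/-- power sums near those of a configuration of distinct points are attained -/
theorem open_pow {n h : ℕ} (hnh : n ≤ h) (v : ℕ → ℝ) (hinj : ∀ i < h, ∀ j < h, v i = v j → i = j)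
    (hv : ∀ j < h, 0 < v j ∧ v j < 1) :
    ∃ ε > 0, ∀ y : ℕ → ℝ, (∀ i < n, |y i - ∑ j ∈ range h, v j ^ (i + 1)| < ε) →
      ∃ v' : ℕ → ℝ, (∀ j < h, 0 < v' j ∧ v' j < 1) ∧
        ∀ i < n, ∑ j ∈ range h, v' j ^ (i + 1) = y i := by
  set x : Fin n → ℝ := fun j => v j with hx
  have hxinj : Function.Injective x := by
    intro a c hac
    exact Fin.ext (hinj a (a.2.trans_le hnh) c (c.2.trans_le hnh) hac)
  have hU : {z : Fin n → ℝ | ∀ j, z j ∈ Ioo (0 : ℝ) 1} ∈ 𝓝 x := by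
    have : {z : Fin n → ℝ | ∀ j, z j ∈ Ioo (0 : ℝ) 1} = Set.pi univ (fun _ => Ioo (0 : ℝ) 1) := by
      ext z; simp
    rw [this]
    apply (isOpen_set_pi finite_univ (fun _ _ => isOpen_Ioo)).mem_nhds
    intro j _
    exact hv j (j.2.trans_le hnh)
  have hmap := (G_strict n x).map_nhds_eq_of_surj (G'_range n x hxinj)
  have himg : G n '' {z : Fin n → ℝ | ∀ j, z j ∈ Ioo (0 : ℝ) 1} ∈ 𝓝 (G n x) := by
    rw [← hmap]
    exact image_mem_map hU
  obtain ⟨ε, hε, hball⟩ := Metric.mem_nhds_iff.1 himg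
  refine ⟨ε, hε, fun y hy => ?_⟩
  have hsplit : ∀ f : ℕ → ℝ, ∑ j ∈ range h, f j = ∑ j ∈ range n, f j + ∑ j ∈ Finset.Ico n h, f j := by
    intro f
    rw [Finset.sum_range_add_sum_Ico _ hnh]
  -- the target
  set z : Fin n → ℝ := fun i => y i - ∑ j ∈ Finset.Ico n h, v j ^ ((i : ℕ) + 1) with hz
  have hzb : z ∈ Metric.ball (G n x) ε := by
    rw [Metric.mem_ball, dist_pi_lt_iff hε]
    intro i
    rw [Real.dist_eq]
    have h1 := hy i i.2
    rw [hsplit] at h1
    have h2 : z i - G n x i = y i - (∑ j ∈ range n, v j ^ ((i : ℕ) + 1) +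
        ∑ j ∈ Finset.Ico n h, v j ^ ((i : ℕ) + 1)) := by
      rw [hz]
      unfold G
      simp only [hx]
      rw [Fin.sum_univ_eq_sum_range (fun j => v j ^ ((i : ℕ) + 1)) n]
      ring
    rw [h2]
    exact h1
  obtain ⟨w, hw, hwz⟩ := hball hzb
  refine ⟨fun j => if hj : j < n then w ⟨j, hj⟩ else v j, ?_, ?_⟩
  · intro j hj
    by_cases h1 : j < n
    · simp only [h1, dif_pos]
      exact hw ⟨j, h1⟩
    · simp only [h1, dif_neg, not_false_iff]
      exact hv j hj
  · intro i hi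
    rw [hsplit]
    have e1 : ∑ j ∈ range n, (if hj : j < n then w ⟨j, hj⟩ else v j) ^ (i + 1) = G n w ⟨i, hi⟩ := by
      unfold G
      rw [← Fin.sum_univ_eq_sum_range (fun j => (if hj : j < n then w ⟨j, hj⟩ else v j) ^ (i + 1)) n]
      refine sum_congr rfl fun j _ => ?_
      simp [j.2]
    have e2 : ∑ j ∈ Finset.Ico n h, (if hj : j < n then w ⟨j, hj⟩ else v j) ^ (i + 1) =
        ∑ j ∈ Finset.Ico n h, v j ^ (i + 1) := by
      refine sum_congr rfl fun j hj => ?_
      rw [Finset.mem_Ico] at hj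
      rw [dif_neg (by omega)]
    rw [e1, e2, hwz]
    simp [hz]

end Pool.Agent.Q192.KQ
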