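import Mathlib
import Pool.Agent.Q192.KQ.Quad
import Pool.Agent.Q192.KQ.Open

/-! Lacunary series with gaps chosen later. -/

set_option autoImplicit false

open MeasureTheory Set Filter Topology

namespace Pool.Agent.Q192.KQ

/-- the series -/
noncomputable def hh (m : ℕ → ℕ) (u : ℝ) : ℝ := ∑' k, (1 / 2 : ℝ) ^ (k + 1) * u ^ (m k)

/-- its partial sums -/
noncomputable def HP (m : ℕ → ℕ) (k : ℕ) : Polynomial ℝ :=
  ∑ j ∈ Finset.range (k + 1), Polynomial.C ((1 / 2 : ℝ) ^ (j + 1)) * Polynomial.X ^ (m j)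

theorem half_sum : HasSum (fun k : ℕ => (1 / 2 : ℝ) ^ (k + 1)) 1 := by
  have h1 := hasSum_geometric_two.mul_left (1 / 2 : ℝ)
  have e : (fun k : ℕ => (1 / 2 : ℝ) ^ (k + 1)) = fun k : ℕ => 1 / 2 * (1 / 2 : ℝ) ^ k := by
    funext k
    ring
  have e2 : (1 / 2 * 2 : ℝ) = 1 := by norm_num
  rw [e2] at h1
  rw [e]
  exact h1

theorem term_le (m : ℕ → ℕ) {u : ℝ} (hu : u ∈ Icc (0 : ℝ) 1) (k : ℕ) :
    0 ≤ (1 / 2 : ℝ) ^ (k + 1) * u ^ (m k) ∧ (1 / 2 : ℝ) ^ (k + 1) * u ^ (m k) ≤ (1 / 2 : ℝ) ^ (k + 1) := by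
  have h1 : 0 ≤ u ^ (m k) := pow_nonneg hu.1 _
  have h2 : u ^ (m k) ≤ 1 := pow_le_one₀ hu.1 hu.2
  have h3 : 0 < (1 / 2 : ℝ) ^ (k + 1) := by positivity
  constructor
  · positivity
  · nlinarith

theorem hh_summable (m : ℕ → ℕ) {u : ℝ} (hu : u ∈ Icc (0 : ℝ) 1) :
    Summable (fun k => (1 / 2 : ℝ) ^ (k + 1) * u ^ (m k)) :=
  Summable.of_nonneg_of_le (fun k => (term_le m hu k).1) (fun k => (term_le m hu k).2) half_sum.summable

theorem pow_bound {r : ℝ} (h0 : 0 ≤ r) (h1 : r < 1) (m : ℕ) : (m : ℝ) * r ^ (m - 1) ≤ 1 / (1 - r) := by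
  have h2 : (m : ℝ) * r ^ (m - 1) ≤ ∑ j ∈ Finset.range m, r ^ j := by
    have : ∑ j ∈ Finset.range m, r ^ (m - 1) ≤ ∑ j ∈ Finset.range m, r ^ j := by
      apply Finset.sum_le_sum
      intro j hj
      rw [Finset.mem_range] at hj
      exact pow_le_pow_of_le_one h0 h1.le (by omega)
    simpa using this
  refine h2.trans ?_
  rw [geom_sum_eq h1.ne, le_div_iff₀ (by linarith)]
  have h3 : (r ^ m - 1) / (r - 1) * (1 - r) = 1 - r ^ m := by
    have : r - 1 ≠ 0 := by linarith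
    field_simp
    ring
  rw [h3]
  linarith [pow_nonneg h0 m]

theorem hh_good {m : ℕ → ℕ} (hm : StrictMono m) (h0 : m 0 = 1) : Good (hh m) := by
  have hm1 : ∀ k, 1 ≤ m k := fun k => h0 ▸ hm.monotone (Nat.zero_le k)
  constructor
  · unfold hh
    refine continuousOn_tsum (u := fun k => (1 / 2 : ℝ) ^ (k + 1)) (fun k => by fun_prop)
      half_sum.summable ?_
    intro k u hu
    rw [Real.norm_eq_abs, abs_of_nonneg (term_le m hu k).1]
    exact (term_le m hu k).2
  · unfold hh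
    have : ∀ k, (1 / 2 : ℝ) ^ (k + 1) * (0 : ℝ) ^ (m k) = 0 := by
      intro k
      rw [zero_pow (by have := hm1 k; omega), mul_zero]
    simp_rw [this]
    exact tsum_zero
  · unfold hh
    simp only [one_pow, mul_one]
    exact half_sum.tsum_eq
  · intro u hu v hv huv
    unfold hh
    refine Summable.tsum_lt_tsum (i := 0) (fun k => ?_) ?_ (hh_summable m hu) (hh_summable m hv)
    · exact mul_le_mul_of_nonneg_left (pow_le_pow_left₀ hu.1 huv.le _) (by positivity)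
    · rw [h0]
      simp only [pow_one]
      linarith
  · intro u hu
    set r := (u + 1) / 2 with hr
    have hr1 : r < 1 := by rw [hr]; linarith [hu.2]
    have hur : u < r := by rw [hr]; linarith [hu.2]
    have hbd : ∀ (k : ℕ) (y : ℝ), y ∈ Ioo 0 r →
        ‖(1 / 2 : ℝ) ^ (k + 1) * ((m k : ℝ) * y ^ (m k - 1))‖ ≤ (1 / 2 : ℝ) ^ (k + 1) * (1 / (1 - r)) := by
      intro k y hy
      rw [Real.norm_eq_abs, abs_of_nonneg (by have := hy.1; positivity)]
      apply mul_le_mul_of_nonneg_left _ (by positivity)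
      refine le_trans ?_ (pow_bound (by linarith [hu.1] : 0 ≤ r) hr1 (m k))
      exact mul_le_mul_of_nonneg_left (pow_le_pow_left₀ hy.1.le hy.2.le _) (by positivity)
    have hder : HasDerivAt (fun z => ∑' k, (1 / 2 : ℝ) ^ (k + 1) * z ^ (m k))
        (∑' k, (1 / 2 : ℝ) ^ (k + 1) * ((m k : ℝ) * u ^ (m k - 1))) u := by
      refine hasDerivAt_tsum_of_isPreconnected (u := fun k => (1 / 2 : ℝ) ^ (k + 1) * (1 / (1 - r)))
        (half_sum.summable.mul_right _) (isOpen_Ioo (a := 0) (b := r)) isPreconnected_Ioo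
        (g := fun k z => (1 / 2 : ℝ) ^ (k + 1) * z ^ (m k))
        (g' := fun k z => (1 / 2 : ℝ) ^ (k + 1) * ((m k : ℝ) * z ^ (m k - 1)))
        (fun k y _ => ((hasDerivAt_pow (m k) y).const_mul _)) hbd (y₀ := u) ⟨hu.1, hur⟩
        (hh_summable m ⟨hu.1.le, hu.2.le⟩) ⟨hu.1, hur⟩
    refine ⟨_, ?_, hder⟩
    have hs : Summable (fun k => (1 / 2 : ℝ) ^ (k + 1) * ((m k : ℝ) * u ^ (m k - 1))) := by
      apply Summable.of_norm_bounded (g := fun k => (1 / 2 : ℝ) ^ (k + 1) * (1 / (1 - r)))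
        (half_sum.summable.mul_right _)
      intro k
      exact hbd k u ⟨hu.1, hur⟩
    refine hs.tsum_pos (fun k => by have := hu.1; positivity) 0 ?_
    rw [h0]
    simp

theorem HP_eval (m : ℕ → ℕ) (k : ℕ) (u : ℝ) : (HP m k).eval u =
    ∑ j ∈ Finset.range (k + 1), (1 / 2 : ℝ) ^ (j + 1) * u ^ (m j) := by
  unfold HP
  rw [Polynomial.eval_finsetSum]
  simp

theorem HP_congr {m m' : ℕ → ℕ} {k : ℕ} (h : ∀ j ≤ k, m' j = m j) : HP m' k = HP m k := by
  unfold HP
  refine Finset.sum_congr rfl fun j hj => ?_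
  rw [Finset.mem_range] at hj
  rw [h j (by omega)]

theorem HP_deg {m : ℕ → ℕ} (hm : StrictMono m) (k : ℕ) : (HP m k).natDegree ≤ m k := by
  unfold HP
  apply Polynomial.natDegree_sum_le_of_forall_le
  intro j hj
  rw [Finset.mem_range] at hj
  refine (Polynomial.natDegree_C_mul_X_pow_le _ _).trans ?_
  exact hm.monotone (by omega)

theorem HP_mono {m : ℕ → ℕ} (h0 : m 0 = 1) (k : ℕ) {u v : ℝ} (hu : 0 ≤ u) (huv : u < v) :
    (HP m k).eval u < (HP m k).eval v := by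
  rw [HP_eval, HP_eval]
  apply Finset.sum_lt_sum
  · intro j _
    exact mul_le_mul_of_nonneg_left (pow_le_pow_left₀ hu huv.le _) (by positivity)
  · refine ⟨0, by simp, ?_⟩
    rw [h0]
    simp only [pow_one]
    linarith

theorem HP_zero {m : ℕ → ℕ} (hm : StrictMono m) (h0 : m 0 = 1) (k : ℕ) : (HP m k).eval 0 = 0 := by
  rw [HP_eval]
  apply Finset.sum_eq_zero
  intro j _
  have : 1 ≤ m j := h0 ▸ hm.monotone (Nat.zero_le j)
  rw [zero_pow (by omega), mul_zero]

theorem HP_one (m : ℕ → ℕ) (k : ℕ) : (HP m k).eval 1 = 1 - (1 / 2 : ℝ) ^ (k + 1) := by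
  rw [HP_eval]
  simp only [one_pow, mul_one]
  induction k with
  | zero => norm_num
  | succ k ih =>
    rw [Finset.sum_range_succ, ih, pow_succ (1 / 2 : ℝ) (k + 1)]
    ring

theorem tail_bound {m : ℕ → ℕ} (hm : StrictMono m) (k : ℕ) {u : ℝ} (hu : u ∈ Icc (0 : ℝ) 1) :
    (HP m k).eval u ≤ hh m u ∧ hh m u ≤ (HP m k).eval u + u ^ (m (k + 1)) := by
  have hs := hh_summable m hu
  have h1 := hs.sum_add_tsum_nat_add (k + 1)
  rw [← HP_eval] at h1
  have hs2 := (summable_nat_add_iff (k + 1)).2 hs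
  have h2 : 0 ≤ ∑' i, (1 / 2 : ℝ) ^ (i + (k + 1) + 1) * u ^ (m (i + (k + 1))) :=
    tsum_nonneg fun i => (term_le m hu _).1
  have hs3 := (summable_nat_add_iff (k + 1)).2 half_sum.summable
  have h3 : ∑' i, (1 / 2 : ℝ) ^ (i + (k + 1) + 1) * u ^ (m (i + (k + 1))) ≤
      ∑' i, (1 / 2 : ℝ) ^ (i + (k + 1) + 1) * u ^ (m (k + 1)) := by
    refine Summable.tsum_le_tsum (fun i => ?_) hs2 (hs3.mul_right _)
    apply mul_le_mul_of_nonneg_left _ (by positivity)
    exact pow_le_pow_of_le_one hu.1 hu.2 (hm.monotone (by omega))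
  have h4 : ∑' i, (1 / 2 : ℝ) ^ (i + (k + 1) + 1) ≤ 1 := by
    have h5 := half_sum.summable.sum_add_tsum_nat_add (k + 1)
    rw [half_sum.tsum_eq] at h5
    have h6 : 0 ≤ ∑ i ∈ Finset.range (k + 1), (1 / 2 : ℝ) ^ (i + 1) :=
      Finset.sum_nonneg fun i _ => by positivity
    linarith
  rw [tsum_mul_right] at h3
  have h5 : 0 ≤ u ^ (m (k + 1)) := pow_nonneg hu.1 _
  unfold hh at *
  constructor
  · rw [← h1]
    linarith
  · rw [← h1]
    nlinarith

theorem mean_le {f g : ℝ → ℝ} (hf : Continuous (fun φ => f (sn φ))) (hg : Continuous (fun φ => g (sn φ)))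
    (h : ∀ u ∈ Icc (0 : ℝ) 1, f u ≤ g u) : mean f ≤ mean g := by
  unfold mean
  apply mul_le_mul_of_nonneg_left _ (by positivity)
  apply intervalIntegral.integral_mono_on Real.pi_pos.le (hf.intervalIntegrable _ _)
    (hg.intervalIntegrable _ _)
  intro φ _
  exact h _ (sn_Icc φ)

theorem pow_diff {a b : ℝ} (ha : 0 ≤ a) (hab : a ≤ b) (hb : b ≤ 1) (i : ℕ) :
    b ^ i ≤ a ^ i + i * (b - a) := by
  induction i with
  | zero => simp
  | succ i ih =>
    have h1 : b ^ (i + 1) = b * b ^ i := by ring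
    have h2 : b * b ^ i ≤ b * (a ^ i + i * (b - a)) := mul_le_mul_of_nonneg_left ih (by linarith)
    have h3 : b * (a ^ i + i * (b - a)) = a * a ^ i + (b - a) * a ^ i + b * (i * (b - a)) := by ring
    have h4 : (b - a) * a ^ i ≤ (b - a) * 1 :=
      mul_le_mul_of_nonneg_left (pow_le_one₀ ha (by linarith)) (by linarith)
    have h5 : b * (i * (b - a)) ≤ 1 * (i * (b - a)) :=
      mul_le_mul_of_nonneg_right hb (mul_nonneg (by positivity) (by linarith))
    push_cast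
    rw [pow_succ a]
    nlinarith

/-- moments of the series and of its partial sums -/
theorem mean_close {m : ℕ → ℕ} (hm : StrictMono m) (h0 : m 0 = 1) (k i : ℕ) :
    mean (fun u => (HP m k).eval u ^ i) ≤ mean (fun u => hh m u ^ i) ∧
    mean (fun u => hh m u ^ i) ≤ mean (fun u => (HP m k).eval u ^ i) + i * mu (m (k + 1)) := by
  have hg := hh_good hm h0
  have c1 : Continuous (fun φ => hh m (sn φ) ^ i) := hg.comp_cont.pow i
  have c2 : Continuous (fun φ => (HP m k).eval (sn φ) ^ i) :=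
    ((HP m k).continuous.comp sn_cont).pow i
  have hpos : ∀ u ∈ Icc (0 : ℝ) 1, 0 ≤ (HP m k).eval u := by
    intro u hu
    rw [HP_eval]
    exact Finset.sum_nonneg fun j _ => (term_le m hu j).1
  constructor
  · apply mean_le c2 c1
    intro u hu
    exact pow_le_pow_left₀ (hpos u hu) (tail_bound hm k hu).1 i
  · have h1 : mean (fun u => (HP m k).eval u ^ i) + i * mu (m (k + 1)) =
        mean (fun u => (HP m k).eval u ^ i + i * u ^ (m (k + 1))) := by
      rw [mean_add (by exact (HP m k).continuous.pow i) (by fun_prop), mean_mul, mean_pow]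
    rw [h1]
    apply mean_le c1 (c2.add (continuous_const.mul (sn_cont.pow _)))
    intro u hu
    have h2 := tail_bound hm k hu
    have h3 := pow_diff (hpos u hu) h2.1 (hg.map_Icc hu).2 i
    have h4 : (i : ℝ) * (hh m u - (HP m k).eval u) ≤ i * u ^ (m (k + 1)) :=
      mul_le_mul_of_nonneg_left (by linarith [h2.2]) (by positivity)
    linarith

end Pool.Agent.Q192.KQ
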