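import Mathlib
import Pool.Agent.Q192.KQ.Kane
import Pool.Agent.Q192.KQ.Ser

/-! The counterexample. -/

set_option autoImplicit false

open MeasureTheory Set Filter Topology

namespace Pool.Agent.Q192.KQ

/-- one block size: all nearby moment vectors are attained -/
theorem near {m : ℕ → ℕ} (hm : StrictMono m) (h0 : m 0 = 1) (k n K : ℕ) (hn : 1 ≤ n)
    (hK : n * m k ≤ K) :
    ∃ ε > 0, ∀ m' : ℕ → ℕ, StrictMono m' → m' 0 = 1 → (∀ j ≤ k, m' j = m j) →
      mu (m' (k + 1)) ≤ ε → ∀ W, WProp (hh m') W → Ex W n (2 * K + 1) := by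
  have hmk : 1 ≤ m k := h0 ▸ hm.monotone (Nat.zero_le k)
  have hnK : n ≤ K := le_trans (Nat.le_mul_of_pos_right n hmk) hK
  have hK0 : 1 ≤ K := hn.trans hnK
  set B := 2 * K + 1 with hB
  have hB0 : (0 : ℝ) < B := by rw [hB]; positivity
  set u : ℕ → ℝ := fun j => Real.sin (Real.pi * (j + 1 : ℕ) / B) ^ 2 with hu
  have hang : ∀ j < K, 0 < Real.pi * (j + 1 : ℕ) / B ∧ Real.pi * (j + 1 : ℕ) / B < Real.pi / 2 := by
    intro j hj
    constructor
    · have := Real.pi_pos
      positivity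
    · rw [div_lt_div_iff₀ hB0 (by norm_num)]
      have h1 : ((j + 1 : ℕ) : ℝ) * 2 < B := by
        have : (j + 1) * 2 < B := by omega
        exact_mod_cast this
      have := Real.pi_pos
      nlinarith
  have hsinmono : ∀ i < K, ∀ j < K, i < j → u i < u j := by
    intro i hi j hj hij
    have h1 : Real.sin (Real.pi * (i + 1 : ℕ) / B) < Real.sin (Real.pi * (j + 1 : ℕ) / B) := by
      apply Real.sin_lt_sin_of_lt_of_le_pi_div_two
      · linarith [(hang i hi).1, Real.pi_pos]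
      · exact (hang j hj).2.le
      · have : ((i + 1 : ℕ) : ℝ) < (j + 1 : ℕ) := by exact_mod_cast (by omega : i + 1 < j + 1)
        have hp := Real.pi_pos
        exact div_lt_div_of_pos_right (mul_lt_mul_of_pos_left this hp) hB0
    have h2 : 0 ≤ Real.sin (Real.pi * (i + 1 : ℕ) / B) :=
      Real.sin_nonneg_of_nonneg_of_le_pi (hang i hi).1.le (by linarith [(hang i hi).2, Real.pi_pos])
    exact pow_lt_pow_left₀ h1 h2 two_ne_zero
  have hu01 : ∀ j < K, 0 < u j ∧ u j < 1 := by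
    intro j hj
    have h1 := hang j hj
    have h2 : 0 < Real.sin (Real.pi * (j + 1 : ℕ) / B) :=
      Real.sin_pos_of_pos_of_lt_pi h1.1 (by linarith [h1.2, Real.pi_pos])
    have h3 : 0 < Real.cos (Real.pi * (j + 1 : ℕ) / B) :=
      Real.cos_pos_of_mem_Ioo ⟨by linarith [h1.1, Real.pi_pos], h1.2⟩
    have h4 := Real.sin_sq_add_cos_sq (Real.pi * (j + 1 : ℕ) / B)
    constructor
    · exact pow_pos h2 2
    · simp only [hu]
      nlinarith
  set v : ℕ → ℝ := fun j => (HP m k).eval (u j) with hv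
  have hvinj : ∀ i < K, ∀ j < K, v i = v j → i = j := by
    intro i hi j hj hij
    rcases lt_trichotomy i j with h1 | h1 | h1
    · exact absurd hij (HP_mono h0 k (hu01 i hi).1.le (hsinmono i hi j hj h1)).ne
    · exact h1
    · exact absurd hij (HP_mono h0 k (hu01 j hj).1.le (hsinmono j hj i hi h1)).ne'
  have hv01 : ∀ j < K, 0 < v j ∧ v j < 1 := by
    intro j hj
    have h1 := HP_mono h0 k le_rfl (hu01 j hj).1
    have h2 := HP_mono h0 k (hu01 j hj).1.le (hu01 j hj).2
    rw [HP_zero hm h0] at h1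
    rw [HP_one] at h2
    have h3 : (0 : ℝ) < (1 / 2) ^ (k + 1) := by positivity
    exact ⟨h1, by linarith⟩
  -- exactness of the grid
  have hexact : ∀ i < n, 2 * ∑ j ∈ Finset.range K, v j ^ (i + 1) =
      B * mean (fun u => (HP m k).eval u ^ (i + 1)) := by
    intro i hi
    have hdeg : ((HP m k) ^ (i + 1)).natDegree < B := by
      refine lt_of_le_of_lt (Polynomial.natDegree_pow_le) ?_
      have h1 : (i + 1) * (HP m k).natDegree ≤ n * m k := Nat.mul_le_mul (by omega) (HP_deg hm k)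
      omega
    have h1 := grid_poly ((HP m k) ^ (i + 1)) hdeg
    simp only [Polynomial.eval_pow] at h1
    rw [← h1, hB, Finset.sum_range_succ', show 2 * K = K + K by ring, Finset.sum_range_add]
    have h2 : ∀ x ∈ Finset.range K, (HP m k).eval (Real.sin (Real.pi * (K + x + 1 : ℕ) / (K + K + 1 : ℕ)) ^ 2) ^ (i + 1) =
        v (K - 1 - x) ^ (i + 1) := by
      intro x hx
      rw [Finset.mem_range] at hx
      simp only [hv, hu]
      congr 3
      have h3 : Real.pi * (K + x + 1 : ℕ) / (K + K + 1 : ℕ) =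
          Real.pi - Real.pi * (K - 1 - x + 1 : ℕ) / B := by
        have h4 : ((K - 1 - x + 1 : ℕ) : ℝ) = K - x := by
          rw [show K - 1 - x + 1 = K - x by omega, Nat.cast_sub hx.le]
        rw [h4, hB]
        push_cast
        field_simp
        ring
      rw [h3, Real.sin_pi_sub]
    rw [Finset.sum_congr rfl h2, Finset.sum_range_reflect (fun j => v j ^ (i + 1)) K]
    have h3 : ∑ x ∈ Finset.range K, (HP m k).eval (Real.sin (Real.pi * (x + 1 : ℕ) / (K + K + 1 : ℕ)) ^ 2) ^ (i + 1) =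
        ∑ j ∈ Finset.range K, v j ^ (i + 1) := by
      refine Finset.sum_congr rfl fun j _ => ?_
      simp only [hv, hu, hB]
      rw [show 2 * K + 1 = K + K + 1 by ring]
    rw [h3]
    simp only [Nat.cast_zero, mul_zero, zero_div, Real.sin_zero]
    rw [zero_pow two_ne_zero, HP_zero hm h0, zero_pow (by omega)]
    ring
  obtain ⟨ε, hε, hopen⟩ := open_pow hnK v hvinj hv01
  refine ⟨ε / (B * n), by positivity, fun m' hm' h0' hagree hmu W hW => ?_⟩
  have hP : HP m' k = HP m k := HP_congr hagree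
  obtain ⟨v', hv', hv2⟩ := hopen (fun i => B / 2 * mean (fun u => hh m' u ^ (i + 1))) (by
    intro i hi
    have h1 := mean_close hm' h0' k (i + 1)
    rw [hP] at h1
    have h2 : ∑ j ∈ Finset.range K, v j ^ (i + 1) = B / 2 * mean (fun u => (HP m k).eval u ^ (i + 1)) := by
      have := hexact i hi
      linarith
    rw [h2, ← mul_sub, abs_of_nonneg (mul_nonneg (by positivity) (by linarith [h1.1]))]
    have h3 : mean (fun u => hh m' u ^ (i + 1)) - mean (fun u => (HP m k).eval u ^ (i + 1)) ≤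
        n * (ε / (B * n)) := by
      have h4 : ((i + 1 : ℕ) : ℝ) * mu (m' (k + 1)) ≤ n * (ε / (B * n)) :=
        mul_le_mul (by exact_mod_cast hi) hmu (mu_pos _).le (by positivity)
      linarith [h1.2]
    have hn0 : (0 : ℝ) < n := by exact_mod_cast hn
    have h5 : (n : ℝ) * (ε / (B * n)) = ε / B := by field_simp
    rw [h5] at h3
    calc (B : ℝ) / 2 * (mean (fun u => hh m' u ^ (i + 1)) - mean (fun u => (HP m k).eval u ^ (i + 1)))
        ≤ B / 2 * (ε / B) := mul_le_mul_of_nonneg_left h3 (by positivity)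
      _ = ε / 2 := by field_simp
      _ < ε := by linarith)
  refine block hW (hh_good hm' h0') v' hv' ?_
  intro i hi
  rw [hv2 i hi, ← hB]
  ring

/-- one stage of the construction -/
theorem stage {m : ℕ → ℕ} (hm : StrictMono m) (h0 : m 0 = 1) (k : ℕ) :
    ∃ n, k + 1 ≤ n ∧ ∃ ε > 0, ∀ m' : ℕ → ℕ, StrictMono m' → m' 0 = 1 → (∀ j ≤ k, m' j = m j) →
      mu (m' (k + 1)) ≤ ε → ∀ W, WProp (hh m') W →
        (Ncounts W n).Nonempty ∧ (k + 1) * Nbar W n < kane W n := by
  have hmk : 1 ≤ m k := h0 ▸ hm.monotone (Nat.zero_le k)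
  set r : ℝ := 1 - (1 / 2 : ℝ) ^ (k + 1) with hr
  have hr1 : r < 1 := by
    have : (0 : ℝ) < (1 / 2) ^ (k + 1) := by positivity
    rw [hr]; linarith
  have hr0 : 0 < r := by
    have : (1 / 2 : ℝ) ^ (k + 1) ≤ (1 / 2) ^ 1 := pow_le_pow_of_le_one (by norm_num) (by norm_num) (by omega)
    rw [hr]; norm_num at this ⊢; linarith
  -- choice of `n`
  set D : ℕ := m k with hD
  have hlim : Tendsto (fun n : ℕ => (n : ℝ) ^ 2 * r ^ n) atTop (𝓝 0) :=
    tendsto_pow_const_mul_const_pow_of_abs_lt_one 2 (by rw [abs_of_pos hr0]; exact hr1)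
  have hev : ∀ᶠ n : ℕ in atTop, (n : ℝ) ^ 2 * r ^ n < 1 / ((k + 1) * (60 * D ^ 2)) :=
    hlim.eventually_lt_const (by positivity)
  obtain ⟨n, hn1, hn2⟩ := (hev.and (eventually_ge_atTop (k + 1))).exists
  have hn0 : 1 ≤ n := by omega
  obtain ⟨ε1, hε1, hex1⟩ := near hm h0 k n (n * D) hn0 le_rfl
  obtain ⟨ε2, hε2, hex2⟩ := near hm h0 k n (n * D + 1) hn0 (Nat.le_succ _)
  refine ⟨n, hn2, min (min ε1 ε2) (r ^ n / n), ?_, ?_⟩
  · have : (0 : ℝ) < n := by exact_mod_cast hn0
    exact lt_min (lt_min hε1 hε2) (by positivity)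
  · intro m' hm' h0' hagree hmu W hW
    have e1 := hex1 m' hm' h0' hagree (hmu.trans ((min_le_left _ _).trans (min_le_left _ _))) W hW
    have e2 := hex2 m' hm' h0' hagree (hmu.trans ((min_le_left _ _).trans (min_le_right _ _))) W hW
    have e3 : mu (m' (k + 1)) ≤ r ^ n / n := hmu.trans (min_le_right _ _)
    set b := 2 * (n * D) + 1 with hb
    have hb1 : 1 < b := by
      have : 1 ≤ n * D := Nat.mul_pos hn0 hmk
      omega
    have hcount := count_of_blocks hb1 ⟨n * D, rfl⟩ e1 (by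
      rw [show b + 2 = 2 * (n * D + 1) + 1 by rw [hb]; ring]
      exact e2)
    refine ⟨⟨_, hcount⟩, ?_⟩
    have hN : Nbar W n ≤ b * (b + 2) := Nat.sInf_le hcount
    -- the mean of `h^n`
    have hmean : mean (fun u => hh m' u ^ n) ≤ 2 * r ^ n := by
      have h1 := (mean_close hm' h0' k n).2
      rw [HP_congr hagree] at h1
      have h2 : mean (fun u => (HP m k).eval u ^ n) ≤ r ^ n := by
        have h3 : mean (fun _ => r ^ n) = r ^ n := by
          unfold mean
          simp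
        rw [← h3]
        apply mean_le (((HP m k).continuous.comp sn_cont).pow n) continuous_const
        intro u hu
        have h4 : 0 ≤ (HP m k).eval u := by
          rw [HP_eval]
          exact Finset.sum_nonneg fun j _ => (term_le m hu j).1
        apply pow_le_pow_left₀ h4
        rcases hu.2.eq_or_lt with h5 | h5
        · rw [h5, HP_one]
        · have := HP_mono h0 k hu.1 h5
          rw [HP_one] at this
          exact this.le
      have h3 : (n : ℝ) * mu (m' (k + 1)) ≤ r ^ n := by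
        have hn0' : (0 : ℝ) < n := by exact_mod_cast hn0
        calc (n : ℝ) * mu (m' (k + 1)) ≤ n * (r ^ n / n) := mul_le_mul_of_nonneg_left e3 hn0'.le
          _ = r ^ n := by field_simp
      linarith
    have hk := kane_ge hW (hh_good hm' h0') hn0
    have hk2 : 1 ≤ (kane W n : ℝ) * (4 * r ^ n) := by
      refine hk.trans (mul_le_mul_of_nonneg_left (by linarith) (by positivity))
    -- comparison
    have hD1 : (1 : ℝ) ≤ D := by exact_mod_cast hmk
    have hn1' : (1 : ℝ) ≤ n := by exact_mod_cast hn0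
    have hbb : ((b * (b + 2) : ℕ) : ℝ) ≤ 15 * (n ^ 2 * D ^ 2) := by
      rw [hb]
      push_cast
      have hnD : (1 : ℝ) ≤ n * D := one_le_mul_of_one_le_of_one_le hn1' hD1
      nlinarith
    have hfin : ((k : ℝ) + 1) * ((b * (b + 2) : ℕ) : ℝ) * (4 * r ^ n) < 1 := by
      have h1 : (n : ℝ) ^ 2 * r ^ n * ((k + 1) * (60 * D ^ 2)) < 1 := by
        rw [lt_div_iff₀ (by positivity)] at hn1
        exact hn1
      calc ((k : ℝ) + 1) * ((b * (b + 2) : ℕ) : ℝ) * (4 * r ^ n)
          ≤ ((k : ℝ) + 1) * (15 * (n ^ 2 * D ^ 2)) * (4 * r ^ n) := by gcongr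
        _ = (n : ℝ) ^ 2 * r ^ n * ((k + 1) * (60 * D ^ 2)) := by ring
        _ < 1 := h1
    have h4 : ((k : ℝ) + 1) * (Nbar W n : ℝ) < kane W n := by
      have h5 : ((k : ℝ) + 1) * (Nbar W n : ℝ) ≤ ((k : ℝ) + 1) * ((b * (b + 2) : ℕ) : ℝ) := by
        apply mul_le_mul_of_nonneg_left _ (by positivity)
        exact_mod_cast hN
      by_contra hcon
      push Not at hcon
      have h6 : (kane W n : ℝ) * (4 * r ^ n) ≤ ((k : ℝ) + 1) * ((b * (b + 2) : ℕ) : ℝ) * (4 * r ^ n) :=
        mul_le_mul_of_nonneg_right (hcon.trans h5) (by positivity)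
      linarith
    exact_mod_cast h4

/-- sequences of exponents -/
def Seq' : Type := {m : ℕ → ℕ // StrictMono m ∧ m 0 = 1}

open Classical in
/-- extension of a sequence beyond `k` by large exponents -/
theorem extend_exists (s : Seq') (k M : ℕ) : ∃ t : Seq', (∀ j ≤ k, t.1 j = s.1 j) ∧ M ≤ t.1 (k + 1) := by
  obtain ⟨m, hm, h0⟩ := s
  refine ⟨⟨fun j => if j ≤ k then m j else max M (m k + 1) + j, ?_, ?_⟩, ?_, ?_⟩
  · apply strictMono_nat_of_lt_succ
    intro j
    by_cases h1 : j + 1 ≤ k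
    · rw [if_pos (by omega), if_pos h1]
      exact hm (Nat.lt_succ_self j)
    · rw [if_neg h1]
      by_cases h2 : j ≤ k
      · rw [if_pos h2]
        have h3 : m j ≤ m k := hm.monotone h2
        have := le_max_right M (m k + 1)
        omega
      · rw [if_neg h2]
        omega
  · simp only
    rw [if_pos (Nat.zero_le k)]
    exact h0
  · intro j hj
    simp only
    rw [if_pos hj]
  · simp only
    rw [if_neg (by omega)]
    have := le_max_left M (m k + 1)
    omega

theorem exists_seq : ∃ m : ℕ → ℕ, StrictMono m ∧ m 0 = 1 ∧ ∀ k, ∃ n, k + 1 ≤ n ∧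
    ∀ W, WProp (hh m) W → (Ncounts W n).Nonempty ∧ (k + 1) * Nbar W n < kane W n := by
  classical
  -- the thresholds
  have hth : ∀ (s : Seq') (k : ℕ), ∃ M : ℕ, ∃ n, k + 1 ≤ n ∧ ∀ m' : ℕ → ℕ, StrictMono m' → m' 0 = 1 →
      (∀ j ≤ k, m' j = s.1 j) → M ≤ m' (k + 1) → ∀ W, WProp (hh m') W →
        (Ncounts W n).Nonempty ∧ (k + 1) * Nbar W n < kane W n := by
    intro s k
    obtain ⟨n, hn, ε, hε, hst⟩ := stage s.2.1 s.2.2 k
    obtain ⟨M, hM⟩ := (mu_lim.eventually_le_const hε).exists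
    refine ⟨M, n, hn, fun m' h1 h2 h3 h4 W hW => hst m' h1 h2 h3 ((mu_anti h4).trans hM) W hW⟩
  choose M hM using hth
  choose ext hext1 hext2 using extend_exists
  let f : ℕ → Seq' := fun k => Nat.rec (⟨fun j => j + 1, by
    intro a b hab
    simpa using hab, rfl⟩ : Seq') (fun k s => ext s k (M s k)) k
  have hfs : ∀ k, f (k + 1) = ext (f k) k (M (f k) k) := fun k => rfl
  have hagree1 : ∀ k, ∀ j ≤ k, (f (k + 1)).1 j = (f k).1 j := by
    intro k j hj
    rw [hfs]
    exact hext1 (f k) k _ j hj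
  have hagree : ∀ k d, ∀ j ≤ k, (f (k + d)).1 j = (f k).1 j := by
    intro k d
    induction d with
    | zero => intro j _; rfl
    | succ d ih =>
      intro j hj
      rw [← add_assoc, hagree1 (k + d) j (by omega), ih j hj]
  set m : ℕ → ℕ := fun j => (f j).1 j with hm
  have hmj : ∀ k, ∀ j ≤ k, m j = (f k).1 j := by
    intro k j hj
    obtain ⟨d, rfl⟩ := Nat.exists_eq_add_of_le hj
    exact (hagree j d j le_rfl).symm
  have hmono : StrictMono m := by
    apply strictMono_nat_of_lt_succ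
    intro j
    rw [hmj (j + 1) j (by omega), hmj (j + 1) (j + 1) le_rfl]
    exact (f (j + 1)).2.1 (Nat.lt_succ_self j)
  have hm0 : m 0 = 1 := (f 0).2.2
  refine ⟨m, hmono, hm0, fun k => ?_⟩
  obtain ⟨n, hn, hst⟩ := hM (f k) k
  refine ⟨n, hn, fun W hW => hst m hmono hm0 (hmj k) ?_ W hW⟩
  rw [hmj (k + 1) (k + 1) le_rfl, hfs]
  exact hext2 (f k) k (M (f k) k)

/-- the disproof -/
theorem main : ∃ W : ℝ → ℝ, IsWeight W ∧ (∀ᵐ θ, W θ ≠ 0) ∧
    ∀ k : ℕ, ∃ n, k + 1 ≤ n ∧ BddAbove (kaneSet W n) ∧ (Ncounts W n).Nonempty ∧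
      (k + 1) * Nbar W n < kane W n := by
  obtain ⟨m, hm, h0, hst⟩ := exists_seq
  obtain ⟨W, h1, h2, h3, h4, h5, h6, h7⟩ := weight_exists (hh_good hm h0)
  have hW : WProp (hh m) W := ⟨h1, h2, h3, h4, h5, h6, h7⟩
  refine ⟨W, ⟨h1, h2, h3, hW.ii, ?_⟩, h6, fun k => ?_⟩
  · rw [hW.total]
    exact Real.two_pi_pos
  · obtain ⟨n, hn, hst'⟩ := hst k
    obtain ⟨h8, h9⟩ := hst' W hW
    exact ⟨n, hn, kane_bdd hW.ii hW.nonneg hW.ae n, h8, h9⟩

end Pool.Agent.Q192.KQ
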